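import Pool.Graph.R_pool_sql_team_seeded_64922ed1.X187.NSC.PubData

/-!
Public definitions: convergence of open sets in the sense of Mosco, for `H¹_{0,σ}`.
-/

set_option autoImplicit false

open MeasureTheory Set Filter Topology
open scoped InnerProductSpace ENNReal ContDiff

namespace Pool.Agent.H303.DSP

open H772R2.NS.Pub Pool.Agent.X187.NSD

/-- The fields of `V(Ω) = H¹_{0,σ}(Ω)`, extended by zero to `D ⊇ Ω`, together with their gradients:
the closure in `L²(D)³ × L²(D)^{3×3}` of the pairs `(φ, ∇φ)`, `φ` a divergence free test field with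
support in `Ω`. -/
def ExtV (D Ω : Set R3) : Set (L2 D R3 × L2 D Mat) :=
  closure {p | ∃ φ, IsTest Ω φ ∧ IsClass p.1 φ ∧ IsClass p.2 (jac φ)}

/-- The open sets `Ωn n ⊆ D` converge to `Ω ⊆ D` in the sense of Mosco (for divergence free
fields): each element of `V(Ω)` is a strong `H¹` limit of elements of `V(Ωn n)`, and the weak `H¹`
limits of elements of `V(Ωn (k n))`, `k` strictly increasing, belong to `V(Ω)`. Here all the fields
are extended by zero to `D`. -/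
structure DomConv (D : Set R3) (Ωn : ℕ → Set R3) (Ω : Set R3) : Prop where
  strong : ∀ p ∈ ExtV D Ω, ∃ q : ℕ → L2 D R3 × L2 D Mat,
    (∀ n, q n ∈ ExtV D (Ωn n)) ∧ Tendsto q atTop (𝓝 p)
  weak : ∀ k : ℕ → ℕ, StrictMono k → ∀ (q : ℕ → L2 D R3 × L2 D Mat) (p : L2 D R3 × L2 D Mat),
    (∀ n, q n ∈ ExtV D (Ωn (k n))) →
    (∀ v, Tendsto (fun n => ⟪(q n).1, v⟫_ℝ) atTop (𝓝 ⟪p.1, v⟫_ℝ)) →
    (∀ w, Tendsto (fun n => ⟪(q n).2, w⟫_ℝ) atTop (𝓝 ⟪p.2, w⟫_ℝ)) → p ∈ ExtV D Ω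

/-- All admissible data in `Ω` of size at most `R` have a strong solution on `[0,T]` with
`‖∇u(t)‖ ≤ L` for all `t ∈ [0,T]`. -/
def RegularWithBound (Ω : Set R3) (ν T R L : ℝ) : Prop :=
  ∀ d : Data Ω, d.Admissible ν T → d.size T ≤ R →
    ∃ u u' G G', IsStrong Ω ν T d.F u u' G G' ∧ u 0 = d.u₀ ∧ ∀ t ∈ Icc 0 T, ‖G t‖ ≤ L

end Pool.Agent.H303.DSP
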