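import Pool.Agent.H303.DS.Ext
import Pool.Agent.H303.DS.PubDef

/-!
Transfer of the regularity, in terms of the public definitions.
-/

set_option autoImplicit false

open MeasureTheory Set Filter Topology
open scoped InnerProductSpace ENNReal ContDiff

namespace Pool.Agent.H303.DS

open H772R2.NS H772R2.NS.Pub H772R2.NSR
open Pool.Agent.W795.TQ Pool.Agent.X187.NSD
open Pool.Agent.X187.NSC hiding fam_close weak_limit core open_ultra
open Pool.Agent.H303.DSP

theorem extV_eq (D Ω : Set R3) :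
    (ExtV D Ω : Set (L2V (D : Set E3) × L2M (D : Set E3)))
      = (extW (D : Set E3) (Ω : Set E3) : Set (L2V (D : Set E3) × L2M (D : Set E3))) := by
  refine Eq.trans ?_ (extW_coe (D : Set E3) (Ω : Set E3)).symm
  have : {p : L2 D R3 × L2 D Mat |
      ∃ φ, Pub.IsTest Ω φ ∧ IsClass p.1 φ ∧ IsClass p.2 (Pub.jac φ)}
      = (preV (D : Set E3) (Ω : Set E3) : Set (L2V (D : Set E3) × L2M (D : Set E3))) := by
    ext v
    constructor
    · rintro ⟨φ, h1, h2, h3⟩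
      exact ⟨φ, (isTest_iff φ).mp h1, h2, (isClass_jac _ φ).mp h3⟩
    · rintro ⟨φ, h1, h2, h3⟩
      exact ⟨φ, (isTest_iff φ).mpr h1, h2, (isClass_jac _ φ).mpr h3⟩
  unfold ExtV
  rw [this]
  rfl

theorem mem_extV {D Ω : Set E3} {p : L2V D × L2M D} :
    p ∈ extW D Ω ↔ p ∈ (ExtV (show Set R3 from D) (show Set R3 from Ω) :
      Set (L2V D × L2M D)) := by
  have h := extV_eq (show Set R3 from D) (show Set R3 from Ω)
  have h2 : p ∈ (extW D Ω : Set (L2V D × L2M D)) ↔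
      p ∈ (ExtV (show Set R3 from D) (show Set R3 from Ω) : Set (L2V D × L2M D)) := by
    exact (Set.ext_iff.1 h p).symm
  exact h2

theorem mosS_of_domConv {D Ω : Set E3} {Ωn : ℕ → Set E3}
    (h : DomConv (show Set R3 from D) (fun n => (show Set R3 from Ωn n)) (show Set R3 from Ω)) :
    MosS (fun n => extW D (Ωn n)) (extW D Ω) where
  recov := fun p hp => by
    obtain ⟨q, h1, h2⟩ := h.strong p (mem_extV.mp hp)
    exact ⟨q, fun n => mem_extV.mpr (h1 n), h2⟩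
  lim := fun φ hφ q p h1 h2 h3 =>
    mem_extV.mpr (h.weak φ hφ q p (fun n => mem_extV.mp (h1 n)) h2 h3)

theorem domConv_of_mosS {D Ω : Set E3} {Ωn : ℕ → Set E3}
    (h : MosS (fun n => extW D (Ωn n)) (extW D Ω)) :
    DomConv (show Set R3 from D) (fun n => (show Set R3 from Ωn n)) (show Set R3 from Ω) where
  strong := fun p hp => by
    obtain ⟨q, h1, h2⟩ := h.recov p (mem_extV.mpr hp)
    exact ⟨q, fun n => mem_extV.mp (h1 n), h2⟩
  weak := fun φ hφ q p h1 h2 h3 =>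
    mem_extV.mp (h.lim φ hφ q p (fun n => mem_extV.mpr (h1 n)) h2 h3)

theorem regular_iff {D Ω : Set E3} (hΩ : IsOpen Ω) (hD : IsOpen D) (hb : Bornology.IsBounded D)
    (h : Ω ⊆ D) {ν T : ℝ} (hT : 0 < T) (R : ℝ) :
    (∀ d : Data (show Set R3 from Ω), d.Admissible ν T → d.size T ≤ R → d.Regular ν T) ↔
      ∀ d : Dat (L2V D) (L2M D), Adm (extW D Ω) tensL ν T d → d.size T ≤ R →
        Good (extW D Ω) tensL ν T d := by
  obtain ⟨C, Fr⟩ := exists_frame hΩ (hb.subset h)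
  rw [← (emb_ext hΩ.measurableSet hD.measurableSet h).good_iff hT.le R]
  constructor
  · intro H d hd hR
    have hd' : (ofDat d).Admissible ν T := (adm_iff hΩ (ofDat d)).mp hd
    exact (good_iff hΩ Fr hT (ofDat d) hd).mpr (H (ofDat d) hd' hR)
  · intro H d hd hR
    have hd' := (adm_iff hΩ d).mpr hd
    exact (good_iff hΩ Fr hT d hd').mp (H (toDat d) hd' hR)

theorem regularWith_iff {D Ω : Set E3} (hΩ : IsOpen Ω) (hD : IsOpen D)
    (hb : Bornology.IsBounded D) (h : Ω ⊆ D) {ν T : ℝ} (hT : 0 < T) (R L : ℝ) :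
    RegularWithBound (show Set R3 from Ω) ν T R L ↔ RegB (extW D Ω) tensL ν T R L := by
  obtain ⟨C, Fr⟩ := exists_frame hΩ (hb.subset h)
  rw [← (emb_ext hΩ.measurableSet hD.measurableSet h).regB_iff hT.le R L]
  constructor
  · intro H d hd hR
    have hd' : (ofDat d).Admissible ν T := (adm_iff hΩ (ofDat d)).mp hd
    obtain ⟨u, u1, z, z1, h1, h2, h3⟩ := H (ofDat d) hd' hR
    exact ⟨u, u1, z, z1, str_of_strong hΩ Fr hT hd.force h1, h2, h3⟩
  · intro H d hd hR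
    have hd' := (adm_iff hΩ d).mpr hd
    obtain ⟨u, u1, z, z1, h1, h2, h3⟩ := H (toDat d) hd' hR
    exact ⟨u, u1, z, z1, strong_of_str hΩ hT h1 (fun _ _ => rfl), h2, h3⟩

/-- The transfer theorem. -/
theorem transfer {D : Set E3} (hD : IsOpen D) (hb : Bornology.IsBounded D)
    {Ω : Set E3} (hΩ : IsOpen Ω) (hΩD : Ω ⊆ D) {Ωn : ℕ → Set E3} (hΩn : ∀ n, IsOpen (Ωn n))
    (hΩnD : ∀ n, Ωn n ⊆ D)
    (hM : MosS (fun n => extW D (Ωn n)) (extW D Ω)) {ν T R : ℝ} (hν : 0 < ν) (hT : 0 < T)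
    (hR : 0 ≤ R) :
    List.TFAE [∀ d : Data (show Set R3 from Ω), d.Admissible ν T → d.size T ≤ R → d.Regular ν T,
      ∃ R' : ℝ, R < R' ∧ ∃ L : ℝ, ∀ᶠ n in atTop,
        RegularWithBound (show Set R3 from Ωn n) ν T R' L,
      ∃ R' : ℝ, R < R' ∧ ∃ L : ℝ, ∃ᶠ n in atTop,
        RegularWithBound (show Set R3 from Ωn n) ν T R' L] := by
  obtain ⟨c, hc, hU⟩ := Pool.Agent.W52.TQ.proof_univ
  obtain ⟨C, Fr0⟩ := exists_frame hD hb
  have key := transfer_abs (ν := ν) (T := T) Fr0 (hU D hD) (extW_le hΩD) (extW_closed D Ω) hν hT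
    (rellich_W hD hb) (fun n => extW_le (hΩnD n)) (fun n => extW_closed D (Ωn n)) hM hR
  rw [regular_iff hΩ hD hb hΩD hT R]
  have e : ∀ (R' L : ℝ) (n : ℕ), RegularWithBound (show Set R3 from Ωn n) ν T R' L ↔
      ∀ d : Dat (L2V D) (L2M D), Adm (extW D (Ωn n)) tensL ν T d →
        d.size T ≤ R' → ∃ (u u1 : ℝ → L2V D) (z z1 : ℝ → L2M D),
        Str (extW D (Ωn n)) tensL ν T d.F u u1 z z1 ∧
        u 0 = d.x ∧ ∀ t ∈ Icc 0 T, ‖z t‖ ≤ L := fun R' L n =>
    regularWith_iff (hΩn n) hD hb (hΩnD n) hT R' L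
  simp only [e]
  exact key

end Pool.Agent.H303.DS
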