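import Pool.Agent.H303.DS.Fam

set_option autoImplicit false

open MeasureTheory Set Filter Topology
open scoped InnerProductSpace

namespace Pool.Agent.H303.DS

open H772R2.NSR (Frame prim_cont ae_deriv_of_prim memLp_ii joint_cont joint_int m_tendsto unif
  exists_weak_limit mem_of_weak_limit int_sq_le)
open Pool.Agent.W795.TQ
open Pool.Agent.X187.NSC hiding fam_close

section

variable {H K : Type} [NormedAddCommGroup H] [InnerProductSpace ℝ H] [CompleteSpace H]
  [NormedAddCommGroup K] [InnerProductSpace ℝ K] [CompleteSpace K]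
  {W W0 : Submodule ℝ (H × K)} {m : H → K} {C c ν T Φ G N : ℝ} {ι : Type}
  {Wi : ι → Submodule ℝ (H × K)}
  {τ : ι → ℝ} {F F1 : ι → ℝ → K} {u u1 : ι → ℝ → H} {z z1 : ι → ℝ → K}

set_option maxHeartbeats 4000000 in
/-- Uniform closeness in `L²`. -/
theorem fam_close (Fr0 : Frame W0 m C) (Un0 : Univ W0 m c) (hle : ∀ i, Wi i ≤ W0)
    (hcl : ∀ i, IsClosed (Wi i : Set (H × K))) (hW : W ≤ W0) (hWc : IsClosed (W : Set (H × K)))
    (hν : 0 < ν) (hT : 0 < T)
    (hΦ : 0 ≤ Φ) (hG : 0 ≤ G) (hN : 0 ≤ N) (S : FamV Wi m ν T Φ G N τ F F1 u u1 z z1)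
    (U : Ultrafilter ι) (M : MosU U Wi W)
    (hcomp : ∀ R : ℝ, TotallyBounded {v : H | ∃ z, (v, z) ∈ W0 ∧ ‖z‖ ≤ R})
    {Fv Fv1 : ℝ → K} {v v1 : ℝ → H} {y y1 : ℝ → K} (hFv : FH T Fv Fv1)
    (Sv : Str W m ν T Fv v v1 y y1) (h0 : Tendsto (fun i => u i 0) U (𝓝 (v 0)))
    (hFl : ∀ t ∈ Icc 0 T, ∀ k, Tendsto (fun i => ⟪F i t, k⟫_ℝ) U (𝓝 ⟪Fv t, k⟫_ℝ)) :
    ∀ η : ℝ, 0 < η → ∀ᶠ i in U, ∀ t ∈ Icc 0 (τ i), ‖u i t - v t‖ ≤ η := by
  have Fr : Frame W m C := frame_sub Fr0 hW hWc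
  have Un : Univ W m c := univ_sub Un0 hW
  have Fri : ∀ i, Frame (Wi i) m C := fun i => frame_sub Fr0 (hle i) (hcl i)
  have Uni : ∀ i, Univ (Wi i) m c := fun i => univ_sub Un0 (hle i)
  obtain ⟨A, B⟩ := S.exists_bd Fri Uni Un0.c0 hν hT hΦ hG hN
  have hub : ∀ i, ∀ s ∈ Icc 0 (τ i), ‖u i s‖ ≤ C * N := fun i s hs => by
    have h1 := (Fri i).poinc _ ((S.str i).mem s hs)
    have h2 := S.zb i s hs
    have h3 := (Fri i).C0
    exact h1.trans (by gcongr)
  have hmb : ∀ i, ∀ s ∈ Icc 0 (τ i), ‖m (u i s)‖ ≤ c * (√(C * N) * √N ^ 3) := fun i s hs => by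
    have h1 := (Uni i).quart _ ((S.str i).mem s hs)
    have h2 := S.zb i s hs
    have h3 := hub i s hs
    have h4 := Un0.c0
    exact h1.trans (by gcongr)
  have hA := B.A0
  have hex : ∀ t : ℝ, ∃ (x : H) (q : K), 0 ≤ t → ((x, q) ∈ W ∧ ‖q‖ ≤ N ∧
      Tendsto (fun i => u i (min t (τ i))) U (𝓝 x) ∧
      ∀ k : K, Tendsto (fun i => ⟪z i (min t (τ i)), k⟫_ℝ) U (𝓝 ⟪q, k⟫_ℝ)) := by
    intro t
    by_cases ht : 0 ≤ t
    · obtain ⟨x, q, h⟩ := S.ptwise hle U M hcomp ht
      exact ⟨x, q, fun _ => h⟩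
    · exact ⟨0, 0, fun h => absurd h ht⟩
  choose x q hxq using hex
  -- the limit of the final times
  obtain ⟨σ, hσ, hσl⟩ := (isCompact_Icc (a := (0 : ℝ)) (b := T)).ultrafilter_le_nhds (U.map τ) (by
    rw [le_principal_iff]
    show _ ∈ Filter.map τ (U : Filter ι)
    rw [Filter.mem_map]
    exact Filter.univ_mem' fun i => ⟨(S.τ0 i).le, S.τT i⟩)
  have hσt : Tendsto τ U (𝓝 σ) := hσl
  obtain ⟨hun, hxc⟩ := unif (F := (U : Filter ι)) (T := T) (f := fun i t => u i (min t (τ i)))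
    (g := x) (equi_of_half (S.halfU B)) (fun t ht => (hxq t ht.1).2.2.1)
  have hx0 : x 0 = v 0 := by
    refine tendsto_nhds_unique (hxq 0 le_rfl).2.2.1 (h0.congr fun i => ?_)
    rw [min_eq_left (S.τ0 i).le]
  have hvc : ContinuousOn v (Icc 0 T) := prim_cont Sv.u1m Sv.pu
  obtain ⟨V, hV⟩ := Sv.bd
  have hyc : ContinuousOn y (Icc 0 T) := prim_cont Sv.z1m Sv.pz
  obtain ⟨Y, hY⟩ := (isCompact_Icc.image_of_continuousOn hyc).isBounded.exists_norm_le
  have hY' : ∀ t ∈ Icc 0 T, ‖y t‖ ≤ Y := fun t ht => hY _ ⟨t, ht, rfl⟩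
  have hY0 : 0 ≤ Y := (norm_nonneg _).trans (hY' 0 ⟨le_rfl, hT.le⟩)
  set κ : ℝ := 2 * ((c * Y) ^ 4 / ν ^ 3) with hκ
  -- the comparison
  have hcmp : ∀ a b : ℝ, 0 < a → a < b → b < σ → ‖x b - v b‖ ^ 2
      ≤ ‖x a - v a‖ ^ 2 * Real.exp (κ * (b - a)) := by
    intro a b ha hab hbσ
    have hbT : b ≤ T := hbσ.le.trans hσ.2
    have hIab : Icc a b ⊆ Icc 0 T := Icc_subset_Icc ha.le hbT
    have hev : ∀ᶠ i in U, b < τ i := hσt.eventually (lt_mem_nhds hbσ)
    -- joint convergence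
    have jU : ∀ t ∈ Icc a b, Tendsto (fun p : ι × ℝ => u p.1 (min p.2 (τ p.1)))
        ((U : Filter ι) ×ˢ 𝓝[Icc a b] t) (𝓝 (x t)) := fun t ht =>
      joint_of_equi' (f := fun i t => u i (min t (τ i))) (equi_of_half (M := A)
        (fun i s hs t ht hst => S.halfU B i s (hIab hs) t (hIab ht) hst)) ht
        (hxq t (ha.le.trans ht.1)).2.2.1
    have jIn : ∀ t, ∀ᶠ p : ι × ℝ in (U : Filter ι) ×ˢ 𝓝[Icc a b] t, p.2 ∈ Icc a b := fun t =>
      Filter.tendsto_snd.eventually self_mem_nhdsWithin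
    have jM : ∀ t ∈ Icc a b, Tendsto (fun p : ι × ℝ => m (u p.1 (min p.2 (τ p.1))))
        ((U : Filter ι) ×ˢ 𝓝[Icc a b] t) (𝓝 (m (x t))) := by
      intro t ht
      have hq := hxq t (ha.le.trans ht.1)
      refine m_tendsto Fr0 (z := fun p : ι × ℝ => z p.1 (min p.2 (τ p.1))) (s1 := N) hq.2.1
        (hW hq.1) ?_ ?_ (jU t ht)
      · filter_upwards [jIn t] with p hp
        exact S.zb p.1 _ (min_mem (ha.le.trans hp.1) (S.τ0 p.1).le)
      · filter_upwards [jIn t] with p hp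
        exact hle _ ((S.str p.1).mem _ (min_mem (ha.le.trans hp.1) (S.τ0 p.1).le))
    have scal : ∀ {M : ℝ} {f : ι → ℝ → K} (k : K), (∀ i, ∀ s ∈ Icc a b, ∀ t ∈ Icc a b, s ≤ t →
        ‖f i t - f i s‖ ^ 2 ≤ M * (t - s)) → ∀ i, ∀ s ∈ Icc a b, ∀ t ∈ Icc a b, s ≤ t →
        ‖⟪f i t, k⟫_ℝ - ⟪f i s, k⟫_ℝ‖ ^ 2 ≤ (M * ‖k‖ ^ 2) * (t - s) := by
      intro M f k hf i s hs t ht hst
      rw [← inner_sub_left]
      have h1 : ‖⟪f i t - f i s, k⟫_ℝ‖ ≤ ‖f i t - f i s‖ * ‖k‖ := norm_inner_le_norm _ _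
      calc ‖⟪f i t - f i s, k⟫_ℝ‖ ^ 2 ≤ (‖f i t - f i s‖ * ‖k‖) ^ 2 := by gcongr
        _ = ‖f i t - f i s‖ ^ 2 * ‖k‖ ^ 2 := by ring
        _ ≤ (M * (t - s)) * ‖k‖ ^ 2 := by
          have := hf i s hs t ht hst
          gcongr
        _ = _ := by ring
    have jZ : ∀ k : K, ∀ t ∈ Icc a b, Tendsto (fun p : ι × ℝ => ⟪z p.1 (min p.2 (τ p.1)), k⟫_ℝ)
        ((U : Filter ι) ×ˢ 𝓝[Icc a b] t) (𝓝 ⟪q t, k⟫_ℝ) := fun k t ht =>
      joint_of_equi' (f := fun i t => ⟪z i (min t (τ i)), k⟫_ℝ) (g := fun t => ⟪q t, k⟫_ℝ)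
        (equi_of_half (scal k (f := fun i t => z i (min t (τ i)))
          (fun i s hs t ht hst => S.halfZ B ha i s ⟨hs.1, hs.2.trans hbT⟩ t
            ⟨ht.1, ht.2.trans hbT⟩ hst))) ht
        ((hxq t (ha.le.trans ht.1)).2.2.2 k)
    have hFhalf : ∀ i, ∀ s ∈ Icc a b, ∀ t ∈ Icc a b, s ≤ t →
        ‖F i t - F i s‖ ^ 2 ≤ G * (t - s) := by
      intro i s hs t ht hst
      refine prim_half (S.FH i).memLp (S.FH i).prim (hIab hs).1 hst (hIab ht).2 ?_
      exact int_sub_le ((memLp_two_iff_integrable_sq_norm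
        (S.FH i).memLp.aestronglyMeasurable).mp (S.FH i).memLp) (fun t => by positivity)
        (S.F1b i) (hIab hs).1 hst (hIab ht).2
    have jF : ∀ k : K, ∀ t ∈ Icc a b, Tendsto (fun p : ι × ℝ => ⟪F p.1 p.2, k⟫_ℝ)
        ((U : Filter ι) ×ˢ 𝓝[Icc a b] t) (𝓝 ⟪Fv t, k⟫_ℝ) := fun k t ht =>
      joint_of_equi' (f := fun i t => ⟪F i t, k⟫_ℝ) (g := fun t => ⟪Fv t, k⟫_ℝ)
        (equi_of_half (scal k hFhalf)) ht (hFl t (hIab ht) k)
    -- the limit equation
    have jg : ∀ k : K, ∀ t ∈ Icc a b, Tendsto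
        (fun p : ι × ℝ => ⟪F p.1 p.2 - ν • z p.1 (min p.2 (τ p.1))
          + m (u p.1 (min p.2 (τ p.1))), k⟫_ℝ)
        ((U : Filter ι) ×ˢ 𝓝[Icc a b] t) (𝓝 ⟪Fv t - ν • q t + m (x t), k⟫_ℝ) := by
      intro k t ht
      simp only [inner_add_left, inner_sub_left, real_inner_smul_left]
      exact ((jF k t ht).sub ((jZ k t ht).const_mul ν)).add
        ((jM t ht).inner tendsto_const_nhds)
    have hgc : ∀ k : K, ContinuousOn (fun t => ⟪Fv t - ν • q t + m (x t), k⟫_ℝ) (Icc a b) :=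
      fun k => joint_cont (F := (U : Filter ι)) (f := fun i t => ⟪F i t - ν • z i (min t (τ i))
          + m (u i (min t (τ i))), k⟫_ℝ) (jg k)
    have hweak : ∀ p ∈ W, ∀ t ∈ Icc a b,
        ⟪x t - x a, p.1⟫_ℝ = ∫ s in a..t, ⟪Fv s - ν • q s + m (x s), p.2⟫_ℝ := by
      intro p hp t ht
      have hsub : Icc a t ⊆ Icc a b := Icc_subset_Icc_right ht.2
      have l2 := joint_int (F := (U : Filter ι)) ht.1
        (f := fun i s => ⟪F i s - ν • z i (min s (τ i)) + m (u i (min s (τ i))), p.2⟫_ℝ)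
        (g := fun s => ⟪Fv s - ν • q s + m (x s), p.2⟫_ℝ)
        (fun s hs => (jg p.2 s (hsub hs)).mono_left
          (Filter.prod_mono le_rfl (nhdsWithin_mono _ hsub)))
        (fun i => by
          have hmin : ContinuousOn (fun s => min s (τ i)) (Icc a t) := by fun_prop
          have hmaps : MapsTo (fun s => min s (τ i)) (Icc a t) (Icc 0 (τ i)) :=
            fun s hs => min_mem (ha.le.trans hs.1) (S.τ0 i).le
          have hFc : ContinuousOn (F i) (Icc a t) :=
            (prim_cont (S.FH i).memLp (S.FH i).prim).mono (hsub.trans hIab)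
          have hzc : ContinuousOn (fun s => z i (min s (τ i))) (Icc a t) :=
            (prim_cont (S.str i).z1m (S.str i).pz).comp hmin hmaps
          have hmc : ContinuousOn (fun s => m (u i (min s (τ i)))) (Icc a t) :=
            (str_mc (Fri i) (FH.mono (S.FH i) (S.τT i)) (S.str i)).comp hmin hmaps
          exact ((hFc.sub (hzc.const_smul ν)).add hmc).inner continuousOn_const)
      have l1 : Tendsto (fun i => ⟪u i (min t (τ i)) - u i (min a (τ i)), p.1⟫_ℝ) U
          (𝓝 ⟪x t - x a, p.1⟫_ℝ) :=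
        ((hxq t (ha.le.trans ht.1)).2.2.1.sub (hxq a ha.le).2.2.1).inner tendsto_const_nhds
      obtain ⟨r, hr1, hr2⟩ := M.recov p hp
      have hr1' : Tendsto (fun i => (r i).1) U (𝓝 p.1) := (continuous_fst.tendsto p).comp hr2
      have hr2' : Tendsto (fun i => (r i).2) U (𝓝 p.2) := (continuous_snd.tendsto p).comp hr2
      have l3 : Tendsto (fun i => (C * N + C * N) * ‖p.1 - (r i).1‖
          + (Φ + ν * N + c * (√(C * N) * √N ^ 3)) * ‖p.2 - (r i).2‖ * |t - a|) U (𝓝 0) := by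
        have e1 : Tendsto (fun i => ‖p.1 - (r i).1‖) U (𝓝 0) := by
          have := (tendsto_const_nhds (x := p.1) (f := (U : Filter ι))).sub hr1'
          rw [sub_self] at this
          simpa using this.norm
        have e2 : Tendsto (fun i => ‖p.2 - (r i).2‖) U (𝓝 0) := by
          have := (tendsto_const_nhds (x := p.2) (f := (U : Filter ι))).sub hr2'
          rw [sub_self] at this
          simpa using this.norm
        have := (e1.const_mul (C * N + C * N)).add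
          ((e2.const_mul (Φ + ν * N + c * (√(C * N) * √N ^ 3))).mul_const |t - a|)
        simpa using this
      have l4 : Tendsto (fun i => ⟪u i (min t (τ i)) - u i (min a (τ i)), p.1⟫_ℝ
          - ∫ s in a..t, ⟪F i s - ν • z i (min s (τ i)) + m (u i (min s (τ i))), p.2⟫_ℝ) U
          (𝓝 0) := by
        refine squeeze_zero_norm' ?_ l3
        filter_upwards [hev] with i hi
        have hti : t ≤ τ i := ht.2.trans hi.le
        have hai : a ≤ τ i := ht.1.trans hti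
        have hII : Icc a t ⊆ Icc 0 (τ i) := Icc_subset_Icc ha.le hti
        have hgi : ∀ k : K, IntervalIntegrable (fun s => ⟪F i s - ν • z i s + m (u i s), k⟫_ℝ)
            volume a t := fun k => ContinuousOn.intervalIntegrable (by
          rw [uIcc_of_le ht.1]
          exact (str_gc (Fri i) (FH.mono (S.FH i) (S.τT i)) (S.str i) k).mono hII)
        have h1 := str_weak_ab (Fri i) (FH.mono (S.FH i) (S.τT i)) (S.str i) (hr1 i) ha.le ht.1 hti
        have h2 : ∫ s in a..t, ⟪F i s - ν • z i (min s (τ i)) + m (u i (min s (τ i))), p.2⟫_ℝ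
            = ∫ s in a..t, ⟪F i s - ν • z i s + m (u i s), p.2⟫_ℝ := by
          refine intervalIntegral.integral_congr fun s hs => ?_
          rw [uIcc_of_le ht.1] at hs
          show ⟪F i s - ν • z i (min s (τ i)) + m (u i (min s (τ i))), p.2⟫_ℝ = _
          rw [min_eq_left (hs.2.trans hti)]
        have h3 : (∫ s in a..t, ⟪F i s - ν • z i s + m (u i s), p.2⟫_ℝ)
            - (∫ s in a..t, ⟪F i s - ν • z i s + m (u i s), (r i).2⟫_ℝ)
            = ∫ s in a..t, ⟪F i s - ν • z i s + m (u i s), p.2 - (r i).2⟫_ℝ := by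
          rw [← intervalIntegral.integral_sub (hgi _) (hgi _)]
          refine intervalIntegral.integral_congr fun s _ => ?_
          show _ = ⟪F i s - ν • z i s + m (u i s), p.2 - (r i).2⟫_ℝ
          rw [inner_sub_right]
        rw [min_eq_left hti, min_eq_left hai, h2]
        have e : ⟪u i t - u i a, p.1⟫_ℝ - ∫ s in a..t, ⟪F i s - ν • z i s + m (u i s), p.2⟫_ℝ
            = ⟪u i t - u i a, p.1 - (r i).1⟫_ℝ
              - ∫ s in a..t, ⟪F i s - ν • z i s + m (u i s), p.2 - (r i).2⟫_ℝ := by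
          rw [← h3, inner_sub_right, h1]
          ring
        rw [e]
        refine (norm_sub_le _ _).trans (add_le_add ?_ ?_)
        · refine (norm_inner_le_norm _ _).trans ?_
          gcongr
          refine (norm_sub_le _ _).trans (add_le_add ?_ ?_)
          · exact hub i t ⟨ha.le.trans ht.1, hti⟩
          · exact hub i a ⟨ha.le, hai⟩
        · refine intervalIntegral.norm_integral_le_of_norm_le_const fun s hs => ?_
          rw [uIoc_of_le ht.1] at hs
          have hsi : s ∈ Icc 0 (τ i) := hII ⟨hs.1.le, hs.2⟩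
          refine (norm_inner_le_norm _ _).trans ?_
          gcongr
          refine (norm_add_le _ _).trans (add_le_add ((norm_sub_le _ _).trans
            (add_le_add ?_ ?_)) (hmb i s hsi))
          · exact S.Fb i s ⟨hsi.1, hsi.2.trans (S.τT i)⟩
          · rw [norm_smul, Real.norm_of_nonneg hν.le]
            have := S.zb i s hsi
            gcongr
      exact sub_eq_zero.1 (tendsto_nhds_unique (l1.sub l2) l4)
    -- derivatives
    have hdx : ∀ p ∈ W, ∀ t ∈ Ioo a b, HasDerivAt (fun s => ⟪x s, p.1⟫_ℝ)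
        ⟪Fv t - ν • q t + m (x t), p.2⟫_ℝ t := by
      intro p hp t ht
      have htI := Ioo_subset_Icc_self ht
      have h1 : HasDerivAt (fun t => ∫ s in a..t, ⟪Fv s - ν • q s + m (x s), p.2⟫_ℝ)
          ⟪Fv t - ν • q t + m (x t), p.2⟫_ℝ t := by
        refine intervalIntegral.integral_hasDerivAt_right
          (ContinuousOn.intervalIntegrable (by
            rw [uIcc_of_le ht.1.le]; exact (hgc p.2).mono (Icc_subset_Icc_right ht.2.le)))
          ?_ ((hgc p.2 t htI).continuousAt (Icc_mem_nhds ht.1 ht.2))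
        exact ((hgc p.2).mono Ioo_subset_Icc_self).stronglyMeasurableAtFilter isOpen_Ioo t ht
      have h2 := h1.const_add ⟪x a, p.1⟫_ℝ
      refine h2.congr_of_eventuallyEq ?_
      filter_upwards [Icc_mem_nhds ht.1 ht.2] with s hs
      rw [← hweak p hp s hs, inner_sub_left]
      ring
    have hdv : ∀ p ∈ W, ∀ t ∈ Ioo a b, HasDerivAt (fun s => ⟪v s, p.1⟫_ℝ)
        ⟪Fv t - ν • y t + m (v t), p.2⟫_ℝ t := by
      intro p hp t ht
      have htI := Ioo_subset_Icc_self ht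
      have hgv := (str_gc Fr hFv Sv p.2).mono hIab
      have h1 : HasDerivAt (fun t => ∫ s in a..t, ⟪Fv s - ν • y s + m (v s), p.2⟫_ℝ)
          ⟪Fv t - ν • y t + m (v t), p.2⟫_ℝ t := by
        refine intervalIntegral.integral_hasDerivAt_right
          (ContinuousOn.intervalIntegrable (by
            rw [uIcc_of_le ht.1.le]; exact hgv.mono (Icc_subset_Icc_right ht.2.le)))
          ?_ ((hgv t htI).continuousAt (Icc_mem_nhds ht.1 ht.2))
        exact (hgv.mono Ioo_subset_Icc_self).stronglyMeasurableAtFilter isOpen_Ioo t ht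
      have h2 := h1.const_add ⟪v a, p.1⟫_ℝ
      refine h2.congr_of_eventuallyEq ?_
      filter_upwards [Icc_mem_nhds ht.1 ht.2] with s hs
      rw [← str_weak_ab Fr hFv Sv hp ha.le hs.1 (hs.2.trans hbT), inner_sub_left]
      ring
    -- the difference is Lipschitz
    have hlipx : ∀ s ∈ Icc a b, ∀ t ∈ Icc a b, s ≤ t → ‖x t - x s‖ ≤ √(A / a) * (t - s) := by
      intro s hs t ht hst
      refine le_of_tendsto ((hxq t (ha.le.trans ht.1)).2.2.1.sub
        (hxq s (ha.le.trans hs.1)).2.2.1).norm (Eventually.of_forall fun i => ?_)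
      exact S.lipU B ha i s ⟨hs.1, hs.2.trans hbT⟩ t ⟨ht.1, ht.2.trans hbT⟩ hst
    have hlipv : ∀ s ∈ Icc a b, ∀ t ∈ Icc a b, s ≤ t → ‖v t - v s‖ ≤ V * (t - s) := by
      intro s hs t ht hst
      refine prim_lip Sv.pu (ha.le.trans hs.1) hst (ht.2.trans hbT) ?_
      exact ae_mono (Measure.restrict_mono
        (Ioc_subset_Ioc (ha.le.trans hs.1) (ht.2.trans hbT)) le_rfl) hV
    have hlip : ∀ s ∈ Icc a b, ∀ t ∈ Icc a b,
        ‖(x s - v s) - (x t - v t)‖ ≤ (√(A / a) + V) * |s - t| := by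
      have key : ∀ s ∈ Icc a b, ∀ t ∈ Icc a b, s ≤ t →
          ‖(x t - v t) - (x s - v s)‖ ≤ (√(A / a) + V) * (t - s) := by
        intro s hs t ht hst
        have h1 := hlipx s hs t ht hst
        have h2 := hlipv s hs t ht hst
        calc ‖(x t - v t) - (x s - v s)‖ = ‖(x t - x s) - (v t - v s)‖ := by congr 1; abel
          _ ≤ ‖x t - x s‖ + ‖v t - v s‖ := norm_sub_le _ _
          _ ≤ _ := by linarith
      intro s hs t ht
      rcases le_total s t with hst | hst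
      · rw [norm_sub_rev, abs_sub_comm, abs_of_nonneg (by linarith)]
        exact key s hs t ht hst
      · rw [abs_of_nonneg (by linarith)]
        exact key t ht s hs hst
    -- the derivative of the square of the difference
    have hW : ∀ t ∈ Icc a b, (x t - v t, q t - y t) ∈ W := fun t ht =>
      W.sub_mem (hxq t (ha.le.trans ht.1)).1 (Sv.mem t (hIab ht))
    have hdw : ∀ t ∈ Ioo a b, HasDerivAt (fun s => ‖x s - v s‖ ^ 2)
        (2 * (⟪Fv t - ν • q t + m (x t), q t - y t⟫_ℝ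
          - ⟪Fv t - ν • y t + m (v t), q t - y t⟫_ℝ)) t := by
      intro t ht
      have htI := Ioo_subset_Icc_self ht
      refine hasDeriv_sq (w := fun s => x s - v s) (L := √(A / a) + V) ?_ ?_
      · filter_upwards [Icc_mem_nhds ht.1 ht.2] with s hs
        exact hlip s hs t htI
      · have h1 := (hdx _ (hW t htI) t ht).sub (hdv _ (hW t htI) t ht)
        refine h1.congr_of_eventuallyEq (Eventually.of_forall fun s => ?_)
        show ⟪x s - v s, x t - v t⟫_ℝ = ⟪x s, x t - v t⟫_ℝ - ⟪v s, x t - v t⟫_ℝ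
        rw [inner_sub_left]
    have hle : ∀ t ∈ Ioo a b, 2 * (⟪Fv t - ν • q t + m (x t), q t - y t⟫_ℝ
          - ⟪Fv t - ν • y t + m (v t), q t - y t⟫_ℝ) ≤ κ * ‖x t - v t‖ ^ 2 := by
      intro t ht
      have htI := Ioo_subset_Icc_self ht
      have hxW := (hxq t (ha.le.trans htI.1)).1
      have hvW := Sv.mem t (hIab htI)
      have e3 := Fr.anti _ hxW _ hvW
      simp only at e3
      have e4 : ⟪Fv t - ν • q t + m (x t), q t - y t⟫_ℝ
          - ⟪Fv t - ν • y t + m (v t), q t - y t⟫_ℝ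
          = -(ν * ‖q t - y t‖ ^ 2) - ⟪m (x t - v t), y t⟫_ℝ := by
        rw [← inner_sub_left]
        have e5 : Fv t - ν • q t + m (x t) - (Fv t - ν • y t + m (v t)) =
            -(ν • (q t - y t)) + (m (x t) - m (v t)) := by
          rw [smul_sub]; abel
        rw [e5, inner_add_left, inner_neg_left, inner_smul_left, real_inner_self_eq_norm_sq, e3]
        simp
        ring
      have hc := Un.c0
      have hq4 := Un.quart _ (hW t htI)
      simp only at hq4
      have k3 : -⟪m (x t - v t), y t⟫_ℝ ≤ (c * √‖x t - v t‖ * Y) * √‖q t - y t‖ ^ 3 := by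
        have h1 : -⟪m (x t - v t), y t⟫_ℝ ≤ ‖m (x t - v t)‖ * ‖y t‖ :=
          (neg_le_abs _).trans (abs_real_inner_le_norm _ _)
        have h2 := hY' t (hIab htI)
        calc -⟪m (x t - v t), y t⟫_ℝ ≤ ‖m (x t - v t)‖ * ‖y t‖ := h1
          _ ≤ (c * (√‖x t - v t‖ * √‖q t - y t‖ ^ 3)) * Y := by gcongr
          _ = _ := by ring
      have k4 := cube_young (a := c * √‖x t - v t‖ * Y) (b := ν) (x := √‖q t - y t‖)
        (by positivity) hν (Real.sqrt_nonneg _)
      have k5 : √‖q t - y t‖ ^ 4 = ‖q t - y t‖ ^ 2 := by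
        have : √‖q t - y t‖ ^ 4 = (√‖q t - y t‖ ^ 2) ^ 2 := by ring
        rw [this, Real.sq_sqrt (norm_nonneg _)]
      have k6 : √‖x t - v t‖ ^ 4 = ‖x t - v t‖ ^ 2 := by
        have : √‖x t - v t‖ ^ 4 = (√‖x t - v t‖ ^ 2) ^ 2 := by ring
        rw [this, Real.sq_sqrt (norm_nonneg _)]
      have k7 : (c * √‖x t - v t‖ * Y) ^ 4 / ν ^ 3 = (c * Y) ^ 4 / ν ^ 3 * ‖x t - v t‖ ^ 2 := by
        rw [← k6]; ring
      rw [k5, k7] at k4
      rw [e4, hκ]
      linarith
    have hwc : ContinuousOn (fun s => ‖x s - v s‖ ^ 2) (Icc a b) :=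
      (((hxc.sub hvc).norm).pow 2).mono hIab
    exact gron_sq hab.le hwc hdw hle
  -- the limit is `v` up to `σ`
  have hxv : ∀ t ∈ Icc 0 σ, x t = v t := by
    have hop : ∀ b ∈ Ioo 0 σ, x b = v b := by
      intro b hb
      have h1 : Tendsto (fun a : ℝ => ‖x a - v a‖ ^ 2 * Real.exp (κ * (b - a))) (𝓝[>] 0)
          (𝓝 (‖x 0 - v 0‖ ^ 2 * Real.exp (κ * (b - 0)))) := by
        have hc0 : ContinuousWithinAt (fun a : ℝ => ‖x a - v a‖ ^ 2 * Real.exp (κ * (b - a)))
            (Icc 0 T) 0 :=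
          ((((hxc.sub hvc).norm).pow 2).mul (by fun_prop)) 0 ⟨le_rfl, hT.le⟩
        refine hc0.tendsto.mono_left ?_
        rw [nhdsWithin_le_iff]
        exact mem_of_superset (Ioo_mem_nhdsGT hT) Ioo_subset_Icc_self
      rw [hx0, sub_self, norm_zero] at h1
      have h2 : ‖x b - v b‖ ^ 2 ≤ 0 ^ 2 * Real.exp (κ * (b - 0)) := by
        refine ge_of_tendsto h1 ?_
        filter_upwards [Ioo_mem_nhdsGT hb.1] with a ha
        exact hcmp a b ha.1 ha.2 hb.2
      have h3 : ‖x b - v b‖ ^ 2 ≤ 0 := by simpa using h2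
      have h4 : ‖x b - v b‖ = 0 := by
        have := norm_nonneg (x b - v b)
        nlinarith
      exact sub_eq_zero.1 (norm_eq_zero.1 h4)
    intro t ht
    rcases ht.1.eq_or_lt with h | h
    · rw [← h]; exact hx0
    rcases ht.2.eq_or_lt with h' | h'
    · -- by continuity
      subst h'
      have hsub : Icc 0 t ⊆ Icc 0 T := Icc_subset_Icc_right hσ.2
      have h1 : EqOn x v (closure (Ioo 0 t)) := by
        rw [closure_Ioo h.ne]
        have := Set.EqOn.of_subset_closure (s := Ioo 0 t) (t := Icc 0 t) hop (hxc.mono hsub)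
          (hvc.mono hsub) Ioo_subset_Icc_self (by rw [closure_Ioo h.ne])
        exact this
      exact h1 (by rw [closure_Ioo h.ne]; exact ⟨h.le, le_rfl⟩)
    · exact hop t ⟨h, h'⟩
  -- conclusion
  intro η hη
  have hd : ContinuousOn (fun t => x t - v t) (Icc 0 T) := hxc.sub hvc
  have h1 := (Metric.continuousOn_iff.mp hd) σ hσ (η / 2) (by positivity)
  obtain ⟨δ, hδ, hδ'⟩ := h1
  have hev : ∀ᶠ i in U, dist (τ i) σ < δ := (Metric.tendsto_nhds.mp hσt) δ hδ
  filter_upwards [hun (η / 2) (by positivity), hev] with i hi1 hi2 t ht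
  have htT : t ∈ Icc 0 T := ⟨ht.1, ht.2.trans (S.τT i)⟩
  have h2 := hi1 t htT
  rw [min_eq_left ht.2] at h2
  have h3 : ‖x t - v t‖ ≤ η / 2 := by
    rcases le_total t σ with h | h
    · rw [hxv t ⟨ht.1, h⟩, sub_self, norm_zero]; positivity
    · have h4 : dist t σ < δ := by
        rw [Real.dist_eq] at hi2 ⊢
        rw [abs_of_nonneg (by linarith)]
        have := le_abs_self (τ i - σ)
        linarith [ht.2]
      have h5 := hδ' t htT h4
      rw [hxv σ ⟨hσ.1, le_rfl⟩, sub_self, dist_zero_right] at h5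
      exact h5.le
  calc ‖u i t - v t‖ = ‖(u i t - x t) + (x t - v t)‖ := by congr 1; abel
    _ ≤ ‖u i t - x t‖ + ‖x t - v t‖ := norm_add_le _ _
    _ ≤ η := by linarith

end

end Pool.Agent.H303.DS
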