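import Pool.Agent.H303.DS.Data

set_option autoImplicit false

open MeasureTheory Set Filter Topology
open scoped InnerProductSpace

namespace Pool.Agent.H303.DS

open H772R2.NSR (Frame prim_cont ae_deriv_of_prim memLp_ii joint_cont joint_int m_tendsto unif
  exists_weak_limit mem_of_weak_limit int_sq_le grad_unique)
open Pool.Agent.W795.TQ
open Pool.Agent.X187.NSC hiding fam_close weak_limit core open_ultra

/-- Uniform approximation of the elements of a compact set. -/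
theorem MosU.unif {H K : Type} [NormedAddCommGroup H] [InnerProductSpace ℝ H]
    [NormedAddCommGroup K] [InnerProductSpace ℝ K] {ι : Type} {U : Ultrafilter ι}
    {Wi : ι → Submodule ℝ (H × K)} {W : Submodule ℝ (H × K)} (M : MosU U Wi W)
    {S : Set (H × K)} (hS : IsCompact S) (hSW : S ⊆ W) {ε : ℝ} (hε : 0 < ε) :
    ∀ᶠ i in U, ∀ s ∈ S, ∃ q ∈ Wi i, ‖s - q‖ ≤ ε := by
  obtain ⟨t, htS, htf, hcov⟩ := hS.finite_cover_balls (show 0 < ε / 2 by positivity)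
  have hex : ∀ x : H × K, ∃ q : ι → H × K, x ∈ W → ((∀ i, q i ∈ Wi i) ∧ Tendsto q U (𝓝 x)) := by
    intro x
    by_cases hx : x ∈ W
    · obtain ⟨q, h1, h2⟩ := M.recov x hx
      exact ⟨q, fun _ => ⟨h1, h2⟩⟩
    · exact ⟨fun _ => 0, fun h => absurd h hx⟩
  choose q hq using hex
  have hev : ∀ᶠ i in U, ∀ x ∈ t, dist (q x i) x < ε / 2 := by
    rw [Filter.eventually_all_finite htf]
    intro x hx
    exact (Metric.tendsto_nhds.1 (hq x (hSW (htS hx))).2) (ε / 2) (by positivity)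
  filter_upwards [hev] with i hi s hs
  obtain ⟨x, hx, hsx⟩ := mem_iUnion₂.1 (hcov hs)
  refine ⟨q x i, (hq x (hSW (htS hx))).1 i, ?_⟩
  have h1 := hi x hx
  rw [Metric.mem_ball] at hsx
  rw [← dist_eq_norm]
  have := dist_triangle s x (q x i)
  rw [dist_comm x] at this
  linarith

section

variable {H K : Type} [NormedAddCommGroup H] [InnerProductSpace ℝ H] [CompleteSpace H]
  [NormedAddCommGroup K] [InnerProductSpace ℝ K] [CompleteSpace K]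
  {W W0 : Submodule ℝ (H × K)} {m : H → K} {C c ν T : ℝ}

/-- The gradients of strong solutions in the subspaces `Wi i` with nearly the data of a given
strong solution in `W` are bounded. -/
theorem core (Fr0 : Frame W0 m C) (Un0 : Univ W0 m c) (hW : W ≤ W0)
    (hWc : IsClosed (W : Set (H × K))) (hν : 0 < ν) (hT : 0 < T)
    (hcomp : ∀ R : ℝ, TotallyBounded {v : H | ∃ z, (v, z) ∈ W0 ∧ ‖z‖ ≤ R})
    {Fv Fv1 : ℝ → K} {v v1 : ℝ → H} {y y1 : ℝ → K} (hFv : FH T Fv Fv1)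
    (Sv : Str W m ν T Fv v v1 y y1) {R Φ G : ℝ} (hR : 0 ≤ R) (hΦ : 0 ≤ Φ) (hG : 0 ≤ G) :
    ∃ N0 : ℝ, 0 < N0 ∧ ∀ N : ℝ, 0 ≤ N → ∀ (ι : Type) (U : Ultrafilter ι)
      (Wi : ι → Submodule ℝ (H × K)) (τ : ι → ℝ)
      (F F1 : ι → ℝ → K) (u u1 : ι → ℝ → H) (z z1 : ι → ℝ → K),
      (∀ i, Wi i ≤ W0) → (∀ i, IsClosed (Wi i : Set (H × K))) → MosU U Wi W →
      FamV Wi m ν T Φ G N τ F F1 u u1 z z1 → (∀ i, ‖z i 0‖ ≤ R) →
      Tendsto (fun i => u i 0) U (𝓝 (v 0)) →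
      (∀ t ∈ Icc 0 T, ∀ k, Tendsto (fun i => ⟪F i t, k⟫_ℝ) U (𝓝 ⟪Fv t, k⟫_ℝ)) →
      ∀ᶠ i in U, ∀ t ∈ Icc 0 (τ i), ‖z i t‖ ≤ N0 := by
  have hyc : ContinuousOn y (Icc 0 T) := prim_cont Sv.z1m Sv.pz
  have hvc : ContinuousOn v (Icc 0 T) := prim_cont Sv.u1m Sv.pu
  obtain ⟨Y, hY⟩ := (isCompact_Icc.image_of_continuousOn hyc).isBounded.exists_norm_le
  have hY' : ∀ t ∈ Icc 0 T, ‖y t‖ ≤ Y := fun t ht => hY _ ⟨t, ht, rfl⟩
  obtain ⟨N0, hN0, hfar⟩ := far_near C c ν R Φ G T (Y + 1) Fr0.C0 Un0.c0 hν hR hΦ hG hT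
  refine ⟨N0, hN0, ?_⟩
  intro N hN ι U Wi τ F F1 u u1 z z1 hle hcl M S hzR h0 hFl
  obtain ⟨η, hη, hfar'⟩ := hfar N hN
  have hcpt : IsCompact ((fun t => (v t, y t)) '' Icc 0 T) :=
    isCompact_Icc.image_of_continuousOn (hvc.prodMk hyc)
  have hsubW : ((fun t => (v t, y t)) '' Icc 0 T) ⊆ W := by
    rintro _ ⟨t, ht, rfl⟩
    exact Sv.mem t ht
  filter_upwards [fam_close Fr0 Un0 hle hcl hW hWc hν hT hΦ hG hN S U M hcomp hFv Sv h0 hFl
    (η / 2) (by positivity), M.unif hcpt hsubW (show 0 < min 1 (η / 2) by positivity)]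
    with i hi hi2
  have hτT := S.τT i
  have hII : ∀ t ∈ Icc 0 (τ i), t ∈ Icc 0 T := fun t ht => ⟨ht.1, ht.2.trans hτT⟩
  have hF1i : IntegrableOn (fun s => ‖F1 i s‖ ^ 2) (Ioc 0 T) :=
    (memLp_two_iff_integrable_sq_norm (S.FH i).memLp.aestronglyMeasurable).mp (S.FH i).memLp
  refine hfar' H K (Wi i) m (τ i) (F i) (F1 i) (u i) (u1 i) (z i) (z1 i)
    (frame_sub Fr0 (hle i) (hcl i)) (univ_sub Un0 (hle i))
    (S.τ0 i) hτT (FH.mono (S.FH i) hτT) (S.str i)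
    (fun t ht => S.Fb i t (hII t ht))
    (int_sub_le hF1i (fun t => by positivity) (S.F1b i) le_rfl (S.τ0 i).le hτT) (hzR i) (S.zb i)
    fun t ht => ?_
  obtain ⟨q, hq, hq2⟩ := hi2 _ ⟨t, hII t ht, rfl⟩
  have h1 : ‖v t - q.1‖ ≤ min 1 (η / 2) := (norm_fst_le _).trans hq2
  have h2 : ‖y t - q.2‖ ≤ min 1 (η / 2) := (norm_snd_le _).trans hq2
  refine ⟨q, hq, ?_, ?_⟩
  · have h3 := hY' t (hII t ht)
    have h4 : ‖q.2‖ ≤ ‖y t‖ + ‖y t - q.2‖ := by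
      calc ‖q.2‖ = ‖y t - (y t - q.2)‖ := by congr 1; abel
        _ ≤ _ := norm_sub_le _ _
    have h5 := h2.trans (min_le_left _ _)
    linarith
  · have h3 := hi t ht
    have h5 := h1.trans (min_le_right _ _)
    calc ‖u i t - q.1‖ = ‖(u i t - v t) + (v t - q.1)‖ := by congr 1; abel
      _ ≤ ‖u i t - v t‖ + ‖v t - q.1‖ := norm_add_le _ _
      _ ≤ η := by linarith

/-- Openness under the convergence of the subspaces and the weak convergence of the data,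
ultrafilter form. -/
theorem open_ultra (Fr0 : Frame W0 m C) (Un0 : Univ W0 m c) (hW : W ≤ W0)
    (hWc : IsClosed (W : Set (H × K))) (hν : 0 < ν) (hT : 0 < T)
    (hcomp : ∀ R : ℝ, TotallyBounded {v : H | ∃ z, (v, z) ∈ W0 ∧ ‖z‖ ≤ R})
    {R : ℝ} (hR0 : 0 ≤ R) {e : Dat H K} (he : FH T e.F e.F1)
    {v v1 : ℝ → H} {y y1 : ℝ → K} (Sv : Str W m ν T e.F v v1 y y1) (hv0 : v 0 = e.x) :
    ∃ N0 : ℝ, 0 < N0 ∧ ∀ (ι : Type) (U : Ultrafilter ι) (Wi : ι → Submodule ℝ (H × K))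
      (d : ι → Dat H K), (∀ i, Wi i ≤ W0) → (∀ i, IsClosed (Wi i : Set (H × K))) → MosU U Wi W →
      (∀ i, Adm (Wi i) m ν T (d i)) → (∀ i, ‖(d i).z‖ ≤ R) → (∀ i, ‖(d i).F 0‖ ≤ R) →
      (∀ i, (∫ s in (0 : ℝ)..T, ‖(d i).F1 s‖ ^ 2) ≤ R) →
      Tendsto (fun i => (d i).x) U (𝓝 e.x) →
      (∀ t ∈ Icc 0 T, ∀ k, Tendsto (fun i => ⟪(d i).F t, k⟫_ℝ) U (𝓝 ⟪e.F t, k⟫_ℝ)) →
      ∀ η : ℝ, 0 < η → ∀ᶠ i in U, ∃ (u u1 : ℝ → H) (z z1 : ℝ → K),
      Str (Wi i) m ν T (d i).F u u1 z z1 ∧ u 0 = (d i).x ∧ (∀ t ∈ Icc 0 T, ‖z t‖ ≤ N0) ∧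
      ∀ t ∈ Icc 0 T, ‖u t - v t‖ ≤ η := by
  obtain ⟨N0, hN0, hcore⟩ := core Fr0 Un0 hW hWc hν hT hcomp he Sv (R := R)
    (Φ := R + √(R * T)) (G := R) hR0 (by positivity) hR0
  refine ⟨N0, hN0, ?_⟩
  intro ι U Wi d hle hcl M hd hR1 hR2 hR3 hx hFl
  set N : ℝ := N0 + R + 1 with hN
  have hN' : 0 ≤ N := by positivity
  have hz : ∀ i, ‖(d i).z‖ < N := fun i => by
    have := hR1 i
    linarith
  have hFb : ∀ i, ∀ t ∈ Icc 0 T, ‖(d i).F t‖ ≤ R + √(R * T) := fun i =>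
    force_le hT.le (hd i).force hR0 (hR2 i) (hR3 i)
  have Fri : ∀ i, Frame (Wi i) m C := fun i => frame_sub Fr0 (hle i) (hcl i)
  have hex : ∀ i, ∃ (σ τ : ℝ) (u u1 : ℝ → H) (z z1 : ℝ → K), 0 < τ ∧ τ ≤ σ ∧ σ ≤ T ∧
      Str (Wi i) m ν σ (d i).F u u1 z z1 ∧ u 0 = (d i).x ∧ (∀ t ∈ Icc 0 τ, ‖z t‖ ≤ N) ∧
      (τ = σ ∨ N ≤ ‖z τ‖) ∧ (σ = T ∨ N ≤ ‖z σ‖) := by
    intro i
    obtain ⟨σ, u, u1, z, z1, k1, k2, k3, k4, k5⟩ := Pool.Agent.W52.TQ.proof_loc H K (Wi i) m C ν T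
      (d i).F (d i).F1 (d i).x (d i).g (d i).z N (Fri i) (tb_sub hcomp (hle i)) hν hT
      (hd i).force (hd i).mem (hd i).comp (hz i)
    have hz0 := z0_eq (Fri i) k1 k3 (hd i).mem k4
    obtain ⟨τ, h1, h2, h3, h4, h5⟩ := cut k1 k3 (N := N) (by rw [hz0]; exact hz i)
    exact ⟨σ, τ, u, u1, z, z1, h1, h2, k2, k3, k4, h4, h5, k5⟩
  choose σ τ u u1 z z1 h1 h2 h3 h4 h5 h6 h7 h8 using hex
  have S : FamV Wi m ν T (R + √(R * T)) R N τ (fun i => (d i).F) (fun i => (d i).F1) u u1 z z1 :=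
    ⟨h1, fun i => (h2 i).trans (h3 i), fun i => (hd i).force, fun i => (h4 i).mono (h2 i),
      hFb, hR3, h6⟩
  have hx' : Tendsto (fun i => u i 0) U (𝓝 (v 0)) := by
    rw [hv0]
    exact hx.congr fun i => (h5 i).symm
  have hev := hcore N hN' ι U Wi τ _ _ u u1 z z1 hle hcl M S (fun i => by
    rw [z0_eq (Fri i) ((h1 i).trans_le (h2 i)) (h4 i) (hd i).mem (h5 i)]
    exact hR1 i) hx' hFl
  intro η hη
  have hcl' := fam_close Fr0 Un0 hle hcl hW hWc hν hT (by positivity) hR0 hN' S U M hcomp he Sv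
    hx' hFl η hη
  filter_upwards [hev, hcl'] with i hi hci
  have hNlt : ∀ t ∈ Icc 0 (τ i), ¬ N ≤ ‖z i t‖ := by
    intro t ht hle
    have := hi t ht
    linarith
  have e1 : τ i = σ i := (h7 i).resolve_right (hNlt _ ⟨(h1 i).le, le_rfl⟩)
  have e2 : σ i = T := by
    refine (h8 i).resolve_right ?_
    rw [← e1]
    exact hNlt _ ⟨(h1 i).le, le_rfl⟩
  have e3 : τ i = T := e1.trans e2
  rw [e3] at hi hci
  exact ⟨u i, u1 i, z i, z1 i, e2 ▸ h4 i, h5 i, hi, hci⟩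

/-- If all data of size at most `R` have strong solutions for the limit space, then the same holds,
with uniform bounds, for all data of size at most a larger `R'` and all spaces far enough in the
sequence. -/
theorem main_abs [TopologicalSpace.SeparableSpace K] (Fr0 : Frame W0 m C) (Un0 : Univ W0 m c)
    (hW : W ≤ W0) (hWc : IsClosed (W : Set (H × K))) (hν : 0 < ν) (hT : 0 < T)
    (hcomp : ∀ R : ℝ, TotallyBounded {v : H | ∃ z, (v, z) ∈ W0 ∧ ‖z‖ ≤ R})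
    {Wn : ℕ → Submodule ℝ (H × K)} (hle : ∀ n, Wn n ≤ W0)
    (hcl : ∀ n, IsClosed (Wn n : Set (H × K))) (M : MosS Wn W) {R : ℝ} (hR0 : 0 ≤ R)
    (Q : ∀ d : Dat H K, Adm W m ν T d → d.size T ≤ R → Good W m ν T d) :
    ∃ R' : ℝ, R < R' ∧ ∃ (L : ℝ) (n0 : ℕ), ∀ n, n0 ≤ n → ∀ d : Dat H K, Adm (Wn n) m ν T d →
      d.size T ≤ R' → ∃ (u u1 : ℝ → H) (z z1 : ℝ → K), Str (Wn n) m ν T d.F u u1 z z1 ∧
        u 0 = d.x ∧ ∀ t ∈ Icc 0 T, ‖z t‖ ≤ L := by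
  by_contra hcon
  push Not at hcon
  have hP : ∀ k : ℕ, ∃ᶠ n in atTop, ∃ d : Dat H K, Adm (Wn n) m ν T d ∧
      d.size T ≤ R + 1 / ((k : ℝ) + 1) ∧ ∀ (u u1 : ℝ → H) (z z1 : ℝ → K),
        Str (Wn n) m ν T d.F u u1 z z1 → u 0 = d.x → ∃ t ∈ Icc 0 T, (k : ℝ) < ‖z t‖ := by
    intro k
    rw [frequently_atTop]
    intro n0
    obtain ⟨n, h1, d, h2, h3, h4⟩ := hcon (R + 1 / ((k : ℝ) + 1)) (by
      have : (0 : ℝ) < 1 / ((k : ℝ) + 1) := by positivity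
      linarith) k n0
    exact ⟨n, h1, d, h2, h3, h4⟩
  obtain ⟨φ, hφ, hφP⟩ := extraction_forall_of_frequently hP
  choose d h1 h2 h3 using hφP
  set U : Ultrafilter ℕ := hyperfilter ℕ with hU
  have hUle : (U : Filter ℕ) ≤ atTop := Nat.hyperfilter_le_atTop
  have MU : MosU U (fun k => Wn (φ k)) W := (M.comp hφ).toU U hUle
  have hb : ∀ k, (d k).size T ≤ R + 1 := fun k => (h2 k).trans (by
    have : 1 / ((k : ℝ) + 1) ≤ 1 := by
      rw [div_le_one (by positivity)]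
      have : (0 : ℝ) ≤ k := by positivity
      linarith
    linarith)
  obtain ⟨e, he, hx, hFl, hs⟩ := weak_limit Fr0 (fun k => hle (φ k)) hW hT hcomp U MU h1 hb
  -- the size of the limit
  have hes : e.size T ≤ R := by
    obtain ⟨s, hsI, hsl⟩ := (isCompact_Icc (a := (0 : ℝ)) (b := R + 1)).ultrafilter_le_nhds
      (U.map fun k => (d k).size T) (by
        rw [le_principal_iff]
        show _ ∈ Filter.map (fun k => (d k).size T) (U : Filter ℕ)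
        rw [Filter.mem_map]
        exact Filter.univ_mem' fun k => ⟨size_nonneg hT.le _, hb k⟩)
    have hst : Tendsto (fun k => (d k).size T) U (𝓝 s) := hsl
    have h4 : 0 ≤ s - e.size T :=
      ge_of_tendsto (hs s hst) (Eventually.of_forall fun i => dsq_nonneg hT.le _ _)
    have h5 : s ≤ R := by
      have h6 : Tendsto (fun k : ℕ => R + 1 / ((k : ℝ) + 1)) U (𝓝 (R + 0)) :=
        ((tendsto_one_div_add_atTop_nhds_zero_nat (𝕜 := ℝ)).const_add R).mono_left hUle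
      rw [add_zero] at h6
      exact le_of_tendsto_of_tendsto' hst h6 h2
    linarith
  obtain ⟨v, v1, y, y1, Sv, hv0⟩ := Q e he hes
  have hsR := Real.sqrt_nonneg (R + 1)
  obtain ⟨N0, hN0, h⟩ := open_ultra Fr0 Un0 hW hWc hν hT hcomp (R := √(R + 1) + (R + 1))
    (by positivity) he.force Sv hv0
  have hp := fun k => size_parts hT.le (hb k)
  have hev := h ℕ U (fun k => Wn (φ k)) d (fun k => hle _) (fun k => hcl _) MU h1
    (fun i => (Real.le_sqrt_of_sq_le (hp i).1).trans (by linarith))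
    (fun i => (Real.le_sqrt_of_sq_le (hp i).2.1).trans (by linarith))
    (fun i => (hp i).2.2.1.trans (by linarith)) hx hFl 1 one_pos
  have hlarge : ∀ᶠ n : ℕ in U, N0 ≤ n := by
    have h9 : ∀ᶠ n : ℕ in atTop, N0 ≤ n := tendsto_natCast_atTop_atTop.eventually_ge_atTop N0
    exact hUle h9
  obtain ⟨k, ⟨u, u1, z, z1, k1, k2, k3, -⟩, k4⟩ := (hev.and hlarge).exists
  obtain ⟨t, ht, hlt⟩ := h3 k u u1 z z1 k1 k2
  have := k3 t ht
  linarith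

end

end Pool.Agent.H303.DS
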