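import Pool.Agent.H303.DS.Far

set_option autoImplicit false

open MeasureTheory Set Filter Topology
open scoped InnerProductSpace

namespace Pool.Agent.H303.DS

open H772R2.NSR (Frame prim_cont ae_deriv_of_prim memLp_ii joint_cont joint_int m_tendsto unif
  exists_weak_limit mem_of_weak_limit int_sq_le grad_unique)
open H772R2.NSG (toLp_norm_sq toLp_inner)
open Pool.Agent.W795.TQ
open Pool.Agent.X187.NSC hiding fam_close weak_limit core open_ultra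

/-- The product of a weakly and of a strongly convergent family. -/
theorem weak_strong {ι E : Type} [NormedAddCommGroup E] [InnerProductSpace ℝ E]
    {U : Filter ι} {a r : ι → E} {a0 p : E} {B : ℝ} (hB : ∀ i, ‖a i‖ ≤ B)
    (ha : ∀ k, Tendsto (fun i => ⟪a i, k⟫_ℝ) U (𝓝 ⟪a0, k⟫_ℝ)) (hr : Tendsto r U (𝓝 p)) :
    Tendsto (fun i => ⟪a i, r i⟫_ℝ) U (𝓝 ⟪a0, p⟫_ℝ) := by
  have h1 : Tendsto (fun i => ⟪a i, r i - p⟫_ℝ) U (𝓝 0) := by
    have h2 : Tendsto (fun i => B * ‖r i - p‖) U (𝓝 0) := by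
      have := (tendsto_iff_norm_sub_tendsto_zero.1 hr).const_mul B
      simpa using this
    refine squeeze_zero_norm (fun i => ?_) h2
    refine (norm_inner_le_norm _ _).trans ?_
    have := hB i
    gcongr
  have h3 := (ha p).add h1
  rw [add_zero] at h3
  refine h3.congr fun i => ?_
  rw [← inner_add_right]
  congr 1
  abel

variable {H K : Type} [NormedAddCommGroup H] [InnerProductSpace ℝ H] [CompleteSpace H]
  [NormedAddCommGroup K] [InnerProductSpace ℝ K] [CompleteSpace K]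
  {W W0 : Submodule ℝ (H × K)} {m : H → K} {C c ν T Φ G N : ℝ} {ι : Type}
  {Wi : ι → Submodule ℝ (H × K)}

/-- The weak limit of a bounded family of admissible data. -/
theorem weak_limit (Fr0 : Frame W0 m C) (hle : ∀ i, Wi i ≤ W0) (hW : W ≤ W0) (hT : 0 < T)
    (hcomp : ∀ R : ℝ, TotallyBounded {v : H | ∃ z, (v, z) ∈ W0 ∧ ‖z‖ ≤ R})
    (U : Ultrafilter ι) (M : MosU U Wi W) {d : ι → Dat H K} (hd : ∀ i, Adm (Wi i) m ν T (d i))
    {R : ℝ}
    (hR : ∀ i, (d i).size T ≤ R) :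
    ∃ e : Dat H K, Adm W m ν T e ∧ Tendsto (fun i => (d i).x) U (𝓝 e.x) ∧
      (∀ t ∈ Icc 0 T, ∀ k, Tendsto (fun i => ⟪(d i).F t, k⟫_ℝ) U (𝓝 ⟪e.F t, k⟫_ℝ)) ∧
      ∀ s : ℝ, Tendsto (fun i => (d i).size T) U (𝓝 s) →
        Tendsto (fun i => (d i).dsq T e) U (𝓝 (s - e.size T)) := by
  set μ : Measure ℝ := volume.restrict (Ioc 0 T) with hμ
  have hfin : IsFiniteMeasure μ := by rw [hμ, isFiniteMeasure_restrict]; simp
  have hb := fun i => size_parts hT.le (hR i)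
  have hz : ∀ i, ‖(d i).z‖ ≤ √R := fun i => Real.le_sqrt_of_sq_le (hb i).1
  have hF0 : ∀ i, ‖(d i).F 0‖ ≤ √R := fun i => Real.le_sqrt_of_sq_le (hb i).2.1
  have hg : ∀ i, ‖(d i).g‖ ≤ √R := fun i => Real.le_sqrt_of_sq_le (hb i).2.2.2
  set f : ι → Lp K 2 μ := fun i => (hd i).force.memLp.toLp (d i).F1 with hf
  have hfn : ∀ i, ‖f i‖ ^ 2 = ∫ s in (0 : ℝ)..T, ‖(d i).F1 s‖ ^ 2 := by
    intro i
    rw [hf, toLp_norm_sq, intervalIntegral.integral_of_le hT.le]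
  have hfb : ∀ i, ‖f i‖ ≤ √R := fun i => Real.le_sqrt_of_sq_le (by
    rw [hfn]; exact (hb i).2.2.1)
  obtain ⟨z0, hz00, hz0⟩ := exists_weak_limit U (fun i => (d i).z) √R (Eventually.of_forall hz)
  obtain ⟨F0, -, hF00⟩ := exists_weak_limit U (fun i => (d i).F 0) √R
    (Eventually.of_forall hF0)
  obtain ⟨g0, -, hg0⟩ := exists_weak_limit U (fun i => (d i).g) √R (Eventually.of_forall hg)
  obtain ⟨f0, -, hf0⟩ := exists_weak_limit U f √R (Eventually.of_forall hfb)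
  -- the limit of the initial velocities
  have hK : IsCompact (closure {v : H | ∃ z, (v, z) ∈ W0 ∧ ‖z‖ ≤ √R}) :=
    isCompact_iff_totallyBounded_isComplete.mpr
      ⟨(hcomp _).closure, isClosed_closure.isComplete⟩
  obtain ⟨x0, -, hx⟩ := hK.ultrafilter_le_nhds (U.map (fun i => (d i).x)) (by
    rw [le_principal_iff]
    show _ ∈ Filter.map (fun i => (d i).x) (U : Filter ι)
    rw [Filter.mem_map]
    refine Filter.univ_mem' (fun i => ?_)
    exact subset_closure ⟨_, hle i (hd i).mem, hz i⟩)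
  have hx0 : Tendsto (fun i => (d i).x) U (𝓝 x0) := hx
  have hmem : (x0, z0) ∈ W := M.lim (fun i => ((d i).x, (d i).z)) (x0, z0) √R
    (fun i => (hd i).mem) hz hx0 hz0
  have hm : Tendsto (fun i => m (d i).x) U (𝓝 (m x0)) :=
    m_tendsto Fr0 hz00 (hW hmem) (Eventually.of_forall hz)
      (Eventually.of_forall fun i => hle i (hd i).mem) hx0
  -- the force
  set F : ℝ → K := fun t => F0 + ∫ s in (0 : ℝ)..t, f0 s with hFdef
  have hf0m : MemLp (f0 : ℝ → K) 2 μ := Lp.memLp f0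
  have hf0i : Integrable (f0 : ℝ → K) μ := hf0m.integrable (by norm_num)
  have hii : ∀ a b : ℝ, 0 ≤ a → a ≤ b → b ≤ T → IntervalIntegrable (f0 : ℝ → K) volume a b := by
    intro a b ha hab hb
    rw [intervalIntegrable_iff_integrableOn_Ioc_of_le hab]
    exact hf0i.mono_measure (Measure.restrict_mono (Ioc_subset_Ioc ha hb) le_rfl)
  have hFH : FH T F (f0 : ℝ → K) := by
    refine ⟨hf0m, fun a b ha hab hb => ?_⟩
    simp only [hFdef]
    rw [add_sub_add_left_eq_sub]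
    exact intervalIntegral.integral_interval_sub_left (hii 0 b le_rfl (ha.trans hab) hb)
      (hii 0 a le_rfl ha (hab.trans hb))
  have hFl : ∀ t ∈ Icc 0 T, ∀ k, Tendsto (fun i => ⟪(d i).F t, k⟫_ℝ) U (𝓝 ⟪F t, k⟫_ℝ) := by
    intro t ht k
    have hms : MeasurableSet (Ioc (0 : ℝ) t) := measurableSet_Ioc
    have hμs : μ (Ioc 0 t) ≠ ⊤ := measure_ne_top _ _
    have hre : μ.restrict (Ioc 0 t) = volume.restrict (Ioc 0 t) := by
      rw [hμ, Measure.restrict_restrict measurableSet_Ioc]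
      congr 1
      exact inter_eq_left.2 (Ioc_subset_Ioc_right ht.2)
    have key : ∀ h : Lp K 2 μ, ⟪h, indicatorConstLp 2 hms hμs k⟫_ℝ
        = ⟪∫ s in (0 : ℝ)..t, h s, k⟫_ℝ := by
      intro h
      rw [real_inner_comm, L2.inner_indicatorConstLp_eq_inner_setIntegral ℝ hms hμs k h,
        real_inner_comm, intervalIntegral.integral_of_le ht.1, hre]
    have h1 := hf0 (indicatorConstLp 2 hms hμs k)
    simp only [key] at h1
    have h2 := (hF00 k).add h1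
    rw [← inner_add_left] at h2
    refine h2.congr fun i => ?_
    have h3 := (hd i).force.prim 0 t le_rfl ht.1 ht.2
    have h4 : ∫ s in (0 : ℝ)..t, (f i : ℝ → K) s = ∫ s in (0 : ℝ)..t, (d i).F1 s := by
      rw [intervalIntegral.integral_of_le ht.1, intervalIntegral.integral_of_le ht.1]
      refine integral_congr_ae ?_
      exact ae_mono (Measure.restrict_mono (Ioc_subset_Ioc_right ht.2) le_rfl)
        (hd i).force.memLp.coeFn_toLp
    rw [h4, ← h3, ← inner_add_left]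
    congr 1
    abel
  have hF0e : F 0 = F0 := by simp [hFdef]
  refine ⟨⟨x0, z0, F, f0, g0⟩, ⟨hmem, hFH, ?_⟩, hx0, hFl, ?_⟩
  · intro p hp
    show ⟪F 0 - ν • z0 + m x0, p.2⟫_ℝ = ⟪g0, p.1⟫_ℝ
    obtain ⟨r, hr1, hr2⟩ := M.recov p hp
    have hr1' : Tendsto (fun i => (r i).1) U (𝓝 p.1) := (continuous_fst.tendsto p).comp hr2
    have hr2' : Tendsto (fun i => (r i).2) U (𝓝 p.2) := (continuous_snd.tendsto p).comp hr2
    have hgr : Tendsto (fun i => ⟪(d i).g, (r i).1⟫_ℝ) U (𝓝 ⟪g0, p.1⟫_ℝ) :=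
      weak_strong hg hg0 hr1'
    refine tendsto_nhds_unique ?_ hgr
    obtain ⟨Bm, hBm⟩ : ∃ Bm : ℝ, ∀ i, ‖m (d i).x‖ ≤ Bm := by
      refine ⟨√(C * (C * √R * √R ^ 3)), fun i => Real.le_sqrt_of_sq_le ?_⟩
      have h1 := Fr0.quart _ (hle i (hd i).mem)
      have h2 := Fr0.poinc _ (hle i (hd i).mem)
      have h3 := Fr0.C0
      have h4 := hz i
      have h5 : ‖(d i).x‖ ≤ C * √R := h2.trans (by gcongr)
      exact h1.trans (by gcongr)
    have h1 : Tendsto (fun i => ⟪(d i).F 0 - ν • (d i).z + m (d i).x, (r i).2⟫_ℝ) U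
        (𝓝 ⟪F 0 - ν • z0 + m x0, p.2⟫_ℝ) := by
      refine weak_strong (B := √R + |ν| * √R + Bm) (fun i => ?_) (fun k => ?_) hr2'
      · refine (norm_add_le _ _).trans (add_le_add ((norm_sub_le _ _).trans
          (add_le_add (hF0 i) ?_)) (hBm i))
        rw [norm_smul, Real.norm_eq_abs]
        have := hz i
        gcongr
      · simp only [inner_add_left, inner_sub_left, real_inner_smul_left]
        exact ((hFl 0 ⟨le_rfl, hT.le⟩ k).sub ((hz0 k).const_mul ν)).add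
          (hm.inner tendsto_const_nhds)
    exact h1.congr fun i => (hd i).comp _ (hr1 i)
  · intro s hs
    have hf0n : ∫ s in (0 : ℝ)..T, ‖f0 s‖ ^ 2 = ‖f0‖ ^ 2 := by
      rw [intervalIntegral.integral_of_le hT.le, ← real_inner_self_eq_norm_sq, L2.inner_def]
      refine integral_congr_ae (Eventually.of_forall fun s => ?_)
      show ‖f0 s‖ ^ 2 = ⟪f0 s, f0 s⟫_ℝ
      rw [real_inner_self_eq_norm_sq]
    have hfd : ∀ i, ∫ s in (0 : ℝ)..T, ‖(d i).F1 s - f0 s‖ ^ 2 = ‖f i - f0‖ ^ 2 := by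
      intro i
      rw [intervalIntegral.integral_of_le hT.le, ← real_inner_self_eq_norm_sq, L2.inner_def]
      refine integral_congr_ae ?_
      filter_upwards [Lp.coeFn_sub (f i) f0, (hd i).force.memLp.coeFn_toLp] with s h1 h2
      show ‖(d i).F1 s - f0 s‖ ^ 2 = ⟪(f i - f0) s, (f i - f0) s⟫_ℝ
      rw [real_inner_self_eq_norm_sq, h1]
      show _ = ‖(f i) s - f0 s‖ ^ 2
      rw [hf, h2]
    have hes : Dat.size T ⟨x0, z0, F, f0, g0⟩ = ‖z0‖ ^ 2 + ‖F0‖ ^ 2 + ‖f0‖ ^ 2 + ‖g0‖ ^ 2 := by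
      show ‖z0‖ ^ 2 + ‖F 0‖ ^ 2 + (∫ s in (0 : ℝ)..T, ‖f0 s‖ ^ 2) + ‖g0‖ ^ 2 = _
      rw [hf0n, hF0e]
    rw [hes]
    have h1 := (((hz0 z0).add (hF00 F0)).add (hf0 f0)).add (hg0 g0)
    simp only [real_inner_self_eq_norm_sq] at h1
    have h2 := (hs.sub (h1.const_mul 2)).add
      (tendsto_const_nhds (x := ‖z0‖ ^ 2 + ‖F0‖ ^ 2 + ‖f0‖ ^ 2 + ‖g0‖ ^ 2))
    have e1 : s - 2 * (‖z0‖ ^ 2 + ‖F0‖ ^ 2 + ‖f0‖ ^ 2 + ‖g0‖ ^ 2)
        + (‖z0‖ ^ 2 + ‖F0‖ ^ 2 + ‖f0‖ ^ 2 + ‖g0‖ ^ 2)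
        = s - (‖z0‖ ^ 2 + ‖F0‖ ^ 2 + ‖f0‖ ^ 2 + ‖g0‖ ^ 2) := by ring
    rw [e1] at h2
    refine h2.congr fun i => ?_
    show (d i).size T - 2 * (⟪(d i).z, z0⟫_ℝ + ⟪(d i).F 0, F0⟫_ℝ + ⟪f i, f0⟫_ℝ + ⟪(d i).g, g0⟫_ℝ)
      + (‖z0‖ ^ 2 + ‖F0‖ ^ 2 + ‖f0‖ ^ 2 + ‖g0‖ ^ 2)
      = ‖(d i).z - z0‖ ^ 2 + ‖(d i).F 0 - F 0‖ ^ 2 + (∫ s in (0 : ℝ)..T, ‖(d i).F1 s - f0 s‖ ^ 2)
        + ‖(d i).g - g0‖ ^ 2
    rw [hfd, hF0e, norm_sub_sq_real, norm_sub_sq_real, norm_sub_sq_real, norm_sub_sq_real]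
    unfold Dat.size
    rw [← hfn]
    ring

end Pool.Agent.H303.DS
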