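import Pool.Agent.H303.DS.Rec

/-!
Transfer of strong solutions along an isometric embedding of frames.
-/

set_option autoImplicit false

open MeasureTheory Set Filter Topology
open scoped InnerProductSpace

namespace Pool.Agent.H303.DS

open H772R2.NSR (Frame)
open Pool.Agent.W795.TQ
open Pool.Agent.X187.NSC hiding fam_close weak_limit core open_ultra

variable {H K H' K' : Type} [NormedAddCommGroup H] [InnerProductSpace ℝ H] [CompleteSpace H]
  [NormedAddCommGroup K] [InnerProductSpace ℝ K] [CompleteSpace K]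
  [NormedAddCommGroup H'] [InnerProductSpace ℝ H'] [CompleteSpace H']
  [NormedAddCommGroup K'] [InnerProductSpace ℝ K'] [CompleteSpace K']

/-- An isometric embedding of `W` onto `W'`. -/
structure Emb (W : Submodule ℝ (H × K)) (m : H → K) (W' : Submodule ℝ (H' × K')) (m' : H' → K')
    (eH : H →L[ℝ] H') (rH : H' →L[ℝ] H) (eK : K →L[ℝ] K') (rK : K' →L[ℝ] K) : Prop where
  adjH : ∀ x y, ⟪eH x, y⟫_ℝ = ⟪x, rH y⟫_ℝ
  adjK : ∀ x y, ⟪eK x, y⟫_ℝ = ⟪x, rK y⟫_ℝ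
  reH : ∀ x, rH (eH x) = x
  reK : ∀ x, rK (eK x) = x
  fwd : ∀ p ∈ W, (eH p.1, eK p.2) ∈ W'
  bwd : ∀ p ∈ W', (rH p.1, rK p.2) ∈ W
  erH : ∀ p ∈ W', eH (rH p.1) = p.1
  erK : ∀ p ∈ W', eK (rK p.2) = p.2
  mm : ∀ p ∈ W, m' (eH p.1) = eK (m p.1)

variable {W : Submodule ℝ (H × K)} {m : H → K} {W' : Submodule ℝ (H' × K')} {m' : H' → K'}
  {eH : H →L[ℝ] H'} {rH : H' →L[ℝ] H} {eK : K →L[ℝ] K'} {rK : K' →L[ℝ] K} {ν T : ℝ}

omit [CompleteSpace H] [CompleteSpace K] [CompleteSpace H'] [CompleteSpace K'] in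
theorem Emb.normH (E : Emb W m W' m' eH rH eK rK) (x : H) : ‖eH x‖ = ‖x‖ := by
  have h : ‖eH x‖ ^ 2 = ‖x‖ ^ 2 := by
    rw [← real_inner_self_eq_norm_sq, E.adjH, E.reH, real_inner_self_eq_norm_sq]
  exact (pow_left_inj₀ (norm_nonneg _) (norm_nonneg _) two_ne_zero).1 h

omit [CompleteSpace H] [CompleteSpace K] [CompleteSpace H'] [CompleteSpace K'] in
theorem Emb.normK (E : Emb W m W' m' eH rH eK rK) (x : K) : ‖eK x‖ = ‖x‖ := by
  have h : ‖eK x‖ ^ 2 = ‖x‖ ^ 2 := by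
    rw [← real_inner_self_eq_norm_sq, E.adjK, E.reK, real_inner_self_eq_norm_sq]
  exact (pow_left_inj₀ (norm_nonneg _) (norm_nonneg _) two_ne_zero).1 h

omit [CompleteSpace H] [CompleteSpace K] [CompleteSpace H'] [CompleteSpace K'] in
theorem Emb.norm_rK (E : Emb W m W' m' eH rH eK rK) (y : K') : ‖rK y‖ ≤ ‖y‖ := by
  have h : ‖rK y‖ ^ 2 ≤ ‖rK y‖ * ‖y‖ := by
    rw [← real_inner_self_eq_norm_sq, ← E.adjK]
    refine (real_inner_le_norm _ _).trans ?_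
    rw [E.normK]
  by_contra hcon
  push Not at hcon
  nlinarith [norm_nonneg y]

omit [CompleteSpace H] [CompleteSpace K] [CompleteSpace H'] [CompleteSpace K'] in
theorem Emb.norm_rH (E : Emb W m W' m' eH rH eK rK) (y : H') : ‖rH y‖ ≤ ‖y‖ := by
  have h : ‖rH y‖ ^ 2 ≤ ‖rH y‖ * ‖y‖ := by
    rw [← real_inner_self_eq_norm_sq, ← E.adjH]
    refine (real_inner_le_norm _ _).trans ?_
    rw [E.normH]
  by_contra hcon
  push Not at hcon
  nlinarith [norm_nonneg y]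

/-- Forces along a continuous linear map. -/
theorem FH.map {F F1 : ℝ → K} (A : K →L[ℝ] K') (h : FH T F F1) :
    FH T (fun t => A (F t)) (fun t => A (F1 t)) := by
  refine ⟨A.comp_memLp' h.memLp, fun a b ha hab hb => ?_⟩
  rw [← map_sub, h.prim a b ha hab hb]
  have hfin : IsFiniteMeasure (volume.restrict (Ioc 0 T) : Measure ℝ) := by
    rw [isFiniteMeasure_restrict]; simp
  have hi : IntervalIntegrable F1 volume a b := by
    rw [intervalIntegrable_iff_integrableOn_Ioc_of_le hab]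
    exact (h.memLp.integrable (by norm_num)).mono_measure
      (Measure.restrict_mono (Ioc_subset_Ioc ha hb) le_rfl)
  exact (A.intervalIntegral_comp_comm hi).symm

theorem prim_map {X Y : Type} [NormedAddCommGroup X] [InnerProductSpace ℝ X] [CompleteSpace X]
    [NormedAddCommGroup Y] [InnerProductSpace ℝ Y] [CompleteSpace Y] (A : X →L[ℝ] Y)
    {f f1 : ℝ → X} (h1 : MemLp f1 2 (volume.restrict (Ioc 0 T)))
    (h2 : ∀ a b, 0 ≤ a → a ≤ b → b ≤ T → f b - f a = ∫ s in a..b, f1 s) :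
    MemLp (fun t => A (f1 t)) 2 (volume.restrict (Ioc 0 T)) ∧
    ∀ a b, 0 ≤ a → a ≤ b → b ≤ T → A (f b) - A (f a) = ∫ s in a..b, A (f1 s) := by
  have h : FH T (fun t => A (f t)) (fun t => A (f1 t)) := FH.map A ⟨h1, h2⟩
  exact ⟨h.memLp, h.prim⟩

/-- Strong solutions are mapped to strong solutions. -/
theorem Emb.str (E : Emb W m W' m' eH rH eK rK) {F : ℝ → K} {F' : ℝ → K'}
    (hF : ∀ t ∈ Icc 0 T, rK (F' t) = F t)
    {u u1 : ℝ → H} {z z1 : ℝ → K} (S : Str W m ν T F u u1 z z1) :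
    Str W' m' ν T F' (fun t => eH (u t)) (fun t => eH (u1 t)) (fun t => eK (z t))
      (fun t => eK (z1 t)) where
  mem := fun t ht => E.fwd _ (S.mem t ht)
  mem1 := by
    filter_upwards [S.mem1] with t ht
    exact E.fwd _ ht
  bd := by
    obtain ⟨c, hc⟩ := S.bd
    refine ⟨c, ?_⟩
    filter_upwards [hc] with t ht
    rwa [E.normH]
  u1m := (prim_map eH S.u1m S.pu).1
  z1m := (prim_map eK S.z1m S.pz).1
  pu := (prim_map eH S.u1m S.pu).2
  pz := (prim_map eK S.z1m S.pz).2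
  weak := fun p hp t ht => by
    have h1 := S.weak _ (E.bwd p hp) t ht
    rw [← map_sub, E.adjH, h1]
    refine intervalIntegral.integral_congr fun s hs => ?_
    rw [uIcc_of_le ht.1] at hs
    have hsT : s ∈ Icc 0 T := ⟨hs.1, hs.2.trans ht.2⟩
    show ⟪F s - ν • z s + m (u s), rK p.2⟫_ℝ = ⟪F' s - ν • eK (z s) + m' (eH (u s)), p.2⟫_ℝ
    rw [E.mm _ (S.mem s hsT)]
    simp only [inner_add_left, inner_sub_left, real_inner_smul_left, E.adjK]
    have h2 : ⟪F' s, p.2⟫_ℝ = ⟪F s, rK p.2⟫_ℝ := by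
      conv_lhs => rw [← E.erK p hp]
      rw [real_inner_comm, E.adjK, hF s hsT, real_inner_comm]
    rw [h2]
  energy := fun t ht => by
    have h1 := S.energy t ht
    simp only [E.normH, E.normK]
    rw [h1]
    congr 1
    refine intervalIntegral.integral_congr fun s hs => ?_
    rw [uIcc_of_le ht.1] at hs
    have hsT : s ∈ Icc 0 T := ⟨hs.1, hs.2.trans ht.2⟩
    show ⟪F s, z s⟫_ℝ = ⟪F' s, eK (z s)⟫_ℝ
    rw [real_inner_comm (eK (z s)), E.adjK, hF s hsT, real_inner_comm]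

/-- Strong solutions are mapped back to strong solutions. -/
theorem Emb.str_back (E : Emb W m W' m' eH rH eK rK) {F' : ℝ → K'}
    {u u1 : ℝ → H'} {z z1 : ℝ → K'} (S : Str W' m' ν T F' u u1 z z1) :
    Str W m ν T (fun t => rK (F' t)) (fun t => rH (u t)) (fun t => rH (u1 t))
      (fun t => rK (z t)) (fun t => rK (z1 t)) where
  mem := fun t ht => E.bwd _ (S.mem t ht)
  mem1 := by
    filter_upwards [S.mem1] with t ht
    exact E.bwd _ ht
  bd := by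
    obtain ⟨c, hc⟩ := S.bd
    refine ⟨c, ?_⟩
    filter_upwards [hc] with t ht
    exact (E.norm_rH _).trans ht
  u1m := (prim_map rH S.u1m S.pu).1
  z1m := (prim_map rK S.z1m S.pz).1
  pu := (prim_map rH S.u1m S.pu).2
  pz := (prim_map rK S.z1m S.pz).2
  weak := fun p hp t ht => by
    have h1 := S.weak _ (E.fwd p hp) t ht
    have e0 : ⟪rH (u t) - rH (u 0), p.1⟫_ℝ = ⟪u t - u 0, eH p.1⟫_ℝ := by
      rw [← map_sub, real_inner_comm, ← E.adjH, real_inner_comm]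
    rw [e0]
    refine h1.trans ?_
    refine intervalIntegral.integral_congr fun s hs => ?_
    rw [uIcc_of_le ht.1] at hs
    have hsT : s ∈ Icc 0 T := ⟨hs.1, hs.2.trans ht.2⟩
    show ⟪F' s - ν • z s + m' (u s), eK p.2⟫_ℝ = ⟪rK (F' s) - ν • rK (z s) + m (rH (u s)), p.2⟫_ℝ
    have h2 := E.mm _ (E.bwd _ (S.mem s hsT))
    simp only at h2
    rw [E.erH _ (S.mem s hsT)] at h2
    rw [h2, real_inner_comm, E.adjK, map_add, map_sub, map_smul, E.reK, real_inner_comm]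
  energy := fun t ht => by
    have h1 := S.energy t ht
    have eu : ∀ s ∈ Icc 0 T, ‖rH (u s)‖ = ‖u s‖ := fun s hs => by
      have h5 : eH (rH (u s)) = u s := E.erH _ (S.mem s hs)
      rw [← E.normH, h5]
    have ez : ∀ s ∈ Icc 0 T, ‖rK (z s)‖ = ‖z s‖ := fun s hs => by
      have h5 : eK (rK (z s)) = z s := E.erK _ (S.mem s hs)
      rw [← E.normK, h5]
    have e1 : ∫ s in (0 : ℝ)..t, ‖rK (z s)‖ ^ 2 = ∫ s in (0 : ℝ)..t, ‖z s‖ ^ 2 := by
      refine intervalIntegral.integral_congr fun s hs => ?_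
      rw [uIcc_of_le ht.1] at hs
      show ‖rK (z s)‖ ^ 2 = ‖z s‖ ^ 2
      rw [ez s ⟨hs.1, hs.2.trans ht.2⟩]
    have e2 : ∫ s in (0 : ℝ)..t, ⟪rK (F' s), rK (z s)⟫_ℝ = ∫ s in (0 : ℝ)..t, ⟪F' s, z s⟫_ℝ := by
      refine intervalIntegral.integral_congr fun s hs => ?_
      rw [uIcc_of_le ht.1] at hs
      show ⟪rK (F' s), rK (z s)⟫_ℝ = ⟪F' s, z s⟫_ℝ
      rw [real_inner_comm, ← E.adjK, E.erK _ (S.mem s ⟨hs.1, hs.2.trans ht.2⟩), real_inner_comm]
    show ‖rH (u t)‖ ^ 2 / 2 + ν * (∫ s in (0 : ℝ)..t, ‖rK (z s)‖ ^ 2)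
      = ‖rH (u 0)‖ ^ 2 / 2 + ∫ s in (0 : ℝ)..t, ⟪rK (F' s), rK (z s)⟫_ℝ
    rw [e1, e2, eu t ht, eu 0 ⟨le_rfl, ht.1.trans ht.2⟩, h1]

/-- The image of the data. -/
def emb (eH : H →L[ℝ] H') (eK : K →L[ℝ] K') (d : Dat H K) : Dat H' K' :=
  ⟨eH d.x, eK d.z, fun t => eK (d.F t), fun t => eK (d.F1 t), eH d.g⟩

theorem Emb.adm (E : Emb W m W' m' eH rH eK rK) {d : Dat H K} (hd : Adm W m ν T d) :
    Adm W' m' ν T (emb eH eK d) where
  mem := E.fwd _ hd.mem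
  force := FH.map eK hd.force
  comp := fun p hp => by
    have h1 := hd.comp _ (E.bwd p hp)
    have h3 := E.mm _ hd.mem
    show ⟪eK (d.F 0) - ν • eK d.z + m' (eH d.x), p.2⟫_ℝ = ⟪eH d.g, p.1⟫_ℝ
    simp only at h1 h3
    rw [h3, ← map_smul, ← map_sub, ← map_add, E.adjK, E.adjH, h1]

theorem Emb.adm_back (E : Emb W m W' m' eH rH eK rK) {d : Dat H' K'} (hd : Adm W' m' ν T d) :
    Adm W m ν T (emb rH rK d) where
  mem := E.bwd _ hd.mem
  force := FH.map rK hd.force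
  comp := fun p hp => by
    have h1 := hd.comp _ (E.fwd p hp)
    have h3 := E.mm _ (E.bwd _ hd.mem)
    simp only at h1 h3
    rw [E.erH _ hd.mem] at h3
    show ⟪rK (d.F 0) - ν • rK d.z + m (rH d.x), p.2⟫_ℝ = ⟪rH d.g, p.1⟫_ℝ
    have e1 : ⟪rH d.g, p.1⟫_ℝ = ⟪d.g, eH p.1⟫_ℝ := by
      rw [real_inner_comm, ← E.adjH, real_inner_comm]
    rw [e1, ← h1, h3]
    have e2 : ⟪d.F 0 - ν • d.z + eK (m (rH d.x)), eK p.2⟫_ℝ
        = ⟪rK (d.F 0 - ν • d.z + eK (m (rH d.x))), p.2⟫_ℝ := by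
      rw [real_inner_comm, E.adjK, real_inner_comm]
    rw [e2, map_add, map_sub, map_smul, E.reK]

omit [CompleteSpace H] [CompleteSpace K] [CompleteSpace H'] [CompleteSpace K'] in
theorem Emb.size (E : Emb W m W' m' eH rH eK rK) (d : Dat H K) :
    (emb eH eK d).size T = d.size T := by
  show ‖eK d.z‖ ^ 2 + ‖eK (d.F 0)‖ ^ 2 + (∫ s in (0 : ℝ)..T, ‖eK (d.F1 s)‖ ^ 2) + ‖eH d.g‖ ^ 2
    = ‖d.z‖ ^ 2 + ‖d.F 0‖ ^ 2 + (∫ s in (0 : ℝ)..T, ‖d.F1 s‖ ^ 2) + ‖d.g‖ ^ 2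
  simp only [E.normH, E.normK]

theorem Emb.size_back (E : Emb W m W' m' eH rH eK rK) (hT : 0 ≤ T) {d : Dat H' K'}
    (hF : FH T d.F d.F1) : (emb rH rK d).size T ≤ d.size T := by
  show ‖rK d.z‖ ^ 2 + ‖rK (d.F 0)‖ ^ 2 + (∫ s in (0 : ℝ)..T, ‖rK (d.F1 s)‖ ^ 2) + ‖rH d.g‖ ^ 2
    ≤ ‖d.z‖ ^ 2 + ‖d.F 0‖ ^ 2 + (∫ s in (0 : ℝ)..T, ‖d.F1 s‖ ^ 2) + ‖d.g‖ ^ 2
  have h1 := E.norm_rK d.z
  have h2 := E.norm_rK (d.F 0)
  have h3 := E.norm_rH d.g
  have h4 : (∫ s in (0 : ℝ)..T, ‖rK (d.F1 s)‖ ^ 2) ≤ ∫ s in (0 : ℝ)..T, ‖d.F1 s‖ ^ 2 := by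
    rw [intervalIntegral.integral_of_le hT, intervalIntegral.integral_of_le hT]
    have i1 := (memLp_two_iff_integrable_sq_norm hF.memLp.aestronglyMeasurable).mp hF.memLp
    have i2m := (FH.map rK hF).memLp
    have i2 := (memLp_two_iff_integrable_sq_norm i2m.aestronglyMeasurable).mp i2m
    refine integral_mono i2 i1 fun s => ?_
    have := E.norm_rK (d.F1 s)
    show ‖rK (d.F1 s)‖ ^ 2 ≤ ‖d.F1 s‖ ^ 2
    gcongr
  gcongr

/-- Regularity for all data of size at most `R`, with a bound `L` of the gradients. -/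
def RegB (W : Submodule ℝ (H × K)) (m : H → K) (ν T R L : ℝ) : Prop :=
  ∀ d : Dat H K, Adm W m ν T d → d.size T ≤ R → ∃ (u u1 : ℝ → H) (z z1 : ℝ → K),
    Str W m ν T d.F u u1 z z1 ∧ u 0 = d.x ∧ ∀ t ∈ Icc 0 T, ‖z t‖ ≤ L

theorem Emb.regB_iff (E : Emb W m W' m' eH rH eK rK) (hT : 0 ≤ T) (R L : ℝ) :
    RegB W m ν T R L ↔ RegB W' m' ν T R L := by
  constructor
  · intro h d hd hR
    obtain ⟨u, u1, z, z1, h1, h2, h3⟩ := h _ (E.adm_back hd) ((E.size_back hT hd.force).trans hR)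
    refine ⟨_, _, _, _, E.str (F' := d.F) (fun t _ => rfl) h1, ?_, fun t ht => ?_⟩
    · show eH (u 0) = d.x
      rw [h2]
      exact E.erH _ hd.mem
    · show ‖eK (z t)‖ ≤ L
      rw [E.normK]
      exact h3 t ht
  · intro h d hd hR
    obtain ⟨u, u1, z, z1, h1, h2, h3⟩ := h _ (E.adm hd) (by rwa [E.size])
    have h4 := E.str_back h1
    have e : (fun t => rK ((emb eH eK d).F t)) = d.F := by
      funext t
      exact E.reK _
    rw [e] at h4
    refine ⟨_, _, _, _, h4, ?_, fun t ht => ?_⟩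
    · show rH (u 0) = d.x
      rw [h2]
      exact E.reH _
    · exact (E.norm_rK _).trans (h3 t ht)

theorem Emb.good_iff (E : Emb W m W' m' eH rH eK rK) (hT : 0 ≤ T) (R : ℝ) :
    (∀ d : Dat H K, Adm W m ν T d → d.size T ≤ R → Good W m ν T d) ↔
      ∀ d : Dat H' K', Adm W' m' ν T d → d.size T ≤ R → Good W' m' ν T d := by
  constructor
  · intro h d hd hR
    obtain ⟨u, u1, z, z1, h1, h2⟩ := h _ (E.adm_back hd) ((E.size_back hT hd.force).trans hR)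
    refine ⟨_, _, _, _, E.str (F' := d.F) (fun t _ => rfl) h1, ?_⟩
    show eH (u 0) = d.x
    rw [h2]
    exact E.erH _ hd.mem
  · intro h d hd hR
    obtain ⟨u, u1, z, z1, h1, h2⟩ := h _ (E.adm hd) (by rwa [E.size])
    have h4 := E.str_back h1
    have e : (fun t => rK ((emb eH eK d).F t)) = d.F := by
      funext t
      exact E.reK _
    rw [e] at h4
    refine ⟨_, _, _, _, h4, ?_⟩
    show rH (u 0) = d.x
    rw [h2]
    exact E.reH _

end Pool.Agent.H303.DS
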