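import Pool.Agent.H303.DS.Emb
import Pool.Graph.R_pool_sql_team_seeded_64922ed1.X187.NSC.PubData

/-!
Extension by zero and restriction.
-/

set_option autoImplicit false

open MeasureTheory Set Filter Topology
open scoped InnerProductSpace ENNReal ContDiff

namespace Pool.Agent.H303.DS

open H772R2.NS

section maps

variable {E : Type} [NormedAddCommGroup E] [InnerProductSpace ℝ E] {Ω D : Set E3}

theorem restr_le (h : Ω ⊆ D) :
    (volume : Measure E3).restrict Ω ≤ (volume : Measure E3).restrict D :=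
  Measure.restrict_mono h le_rfl

theorem restr_ae (h : Ω ⊆ D) :
    ae ((volume : Measure E3).restrict Ω) ≤ ae ((volume : Measure E3).restrict D) :=
  ae_mono (restr_le h)

theorem memLp_res (h : Ω ⊆ D) (f : Lp E 2 ((volume : Measure E3).restrict D)) :
    MemLp f 2 ((volume : Measure E3).restrict Ω) := (Lp.memLp f).mono_measure (restr_le h)

/-- Restriction of the classes of square integrable functions, as a linear map. -/
noncomputable def resL (E : Type) [NormedAddCommGroup E] [InnerProductSpace ℝ E] {Ω D : Set E3}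
    (h : Ω ⊆ D) :
    Lp E 2 ((volume : Measure E3).restrict D) →ₗ[ℝ] Lp E 2 ((volume : Measure E3).restrict Ω) where
  toFun f := (memLp_res h f).toLp f
  map_add' f g := by
    apply Lp.ext
    refine (MemLp.coeFn_toLp _).trans ?_
    refine ((Lp.coeFn_add f g).filter_mono (restr_ae h)).trans ?_
    refine EventuallyEq.trans ?_ (Lp.coeFn_add _ _).symm
    exact EventuallyEq.add (MemLp.coeFn_toLp _).symm (MemLp.coeFn_toLp _).symm
  map_smul' c f := by
    apply Lp.ext
    refine (MemLp.coeFn_toLp _).trans ?_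
    refine ((Lp.coeFn_smul c f).filter_mono (restr_ae h)).trans ?_
    refine EventuallyEq.trans ?_ (Lp.coeFn_smul _ _).symm
    exact EventuallyEq.const_smul (MemLp.coeFn_toLp _).symm c

/-- Restriction of the classes of square integrable functions. -/
noncomputable def res (E : Type) [NormedAddCommGroup E] [InnerProductSpace ℝ E] {Ω D : Set E3}
    (h : Ω ⊆ D) :
    Lp E 2 ((volume : Measure E3).restrict D) →L[ℝ] Lp E 2 ((volume : Measure E3).restrict Ω) :=
  (resL E h).mkContinuous 1 (fun f => by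
      rw [one_mul]
      show ‖(memLp_res h f).toLp f‖ ≤ ‖f‖
      rw [Lp.norm_toLp, Lp.norm_def]
      exact ENNReal.toReal_mono (Lp.eLpNorm_ne_top f) (eLpNorm_mono_measure _ (restr_le h)))

theorem res_coe (h : Ω ⊆ D) (f : Lp E 2 ((volume : Measure E3).restrict D)) :
    (res E h f : E3 → E) =ᵐ[volume.restrict Ω] f := MemLp.coeFn_toLp (memLp_res h f)

theorem memLp_ind (hm : MeasurableSet Ω) (h : Ω ⊆ D) {f : E3 → E}
    (hf : MemLp f 2 ((volume : Measure E3).restrict Ω)) :
    MemLp (Ω.indicator f) 2 ((volume : Measure E3).restrict D) := by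
  rw [memLp_indicator_iff_restrict hm, Measure.restrict_restrict hm, inter_eq_left.2 h]
  exact hf

theorem norm_ind (hm : MeasurableSet Ω) (h : Ω ⊆ D) (f : E3 → E) :
    eLpNorm (Ω.indicator f) 2 ((volume : Measure E3).restrict D)
      = eLpNorm f 2 ((volume : Measure E3).restrict Ω) := by
  rw [eLpNorm_indicator_eq_eLpNorm_restrict hm, Measure.restrict_restrict hm,
    inter_eq_left.2 h]

theorem ae_ind (hm : MeasurableSet Ω) {f g : E3 → E}
    (hfg : f =ᵐ[volume.restrict Ω] g) : Ω.indicator f =ᵐ[volume.restrict D] Ω.indicator g := by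
  have h1 : ∀ᵐ x ∂(volume : Measure E3), x ∈ Ω → f x = g x :=
    (ae_restrict_iff' hm).1 hfg
  filter_upwards [ae_restrict_of_ae h1] with x hx
  by_cases hxΩ : x ∈ Ω
  · rw [indicator_of_mem hxΩ, indicator_of_mem hxΩ, hx hxΩ]
  · rw [indicator_of_notMem hxΩ, indicator_of_notMem hxΩ]

/-- Extension by zero of the classes of square integrable functions, as a linear map. -/
noncomputable def extL (E : Type) [NormedAddCommGroup E] [InnerProductSpace ℝ E] {Ω D : Set E3}
    (hm : MeasurableSet Ω) (h : Ω ⊆ D) :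
    Lp E 2 ((volume : Measure E3).restrict Ω) →ₗ[ℝ] Lp E 2 ((volume : Measure E3).restrict D) where
  toFun f := (memLp_ind hm h (Lp.memLp f)).toLp _
  map_add' f g := by
    apply Lp.ext
    refine (MemLp.coeFn_toLp _).trans ?_
    refine (ae_ind hm (Lp.coeFn_add f g)).trans ?_
    refine EventuallyEq.trans ?_ (Lp.coeFn_add _ _).symm
    refine EventuallyEq.trans ?_
      (EventuallyEq.add (MemLp.coeFn_toLp _).symm (MemLp.coeFn_toLp _).symm)
    rw [indicator_add']
  map_smul' c f := by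
    apply Lp.ext
    refine (MemLp.coeFn_toLp _).trans ?_
    refine (ae_ind hm (Lp.coeFn_smul c f)).trans ?_
    refine EventuallyEq.trans ?_ (Lp.coeFn_smul _ _).symm
    refine EventuallyEq.trans ?_ (EventuallyEq.const_smul (MemLp.coeFn_toLp _).symm c)
    refine Eventually.of_forall fun x => ?_
    exact indicator_const_smul_apply Ω c _ x

/-- Extension by zero of the classes of square integrable functions. -/
noncomputable def ext (E : Type) [NormedAddCommGroup E] [InnerProductSpace ℝ E] {Ω D : Set E3}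
    (hm : MeasurableSet Ω) (h : Ω ⊆ D) :
    Lp E 2 ((volume : Measure E3).restrict Ω) →L[ℝ] Lp E 2 ((volume : Measure E3).restrict D) :=
  (extL E hm h).mkContinuous 1 (fun f => by
      rw [one_mul]
      show ‖(memLp_ind hm h (Lp.memLp f)).toLp _‖ ≤ ‖f‖
      rw [Lp.norm_toLp, Lp.norm_def, norm_ind hm h])

theorem ext_coe (hm : MeasurableSet Ω) (h : Ω ⊆ D)
    (f : Lp E 2 ((volume : Measure E3).restrict Ω)) :
    (ext E hm h f : E3 → E) =ᵐ[volume.restrict D] Ω.indicator f :=
  MemLp.coeFn_toLp (memLp_ind hm h (Lp.memLp f))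

theorem res_ext (hm : MeasurableSet Ω) (h : Ω ⊆ D)
    (f : Lp E 2 ((volume : Measure E3).restrict Ω)) : res E h (ext E hm h f) = f := by
  apply Lp.ext
  refine (res_coe h _).trans ?_
  refine ((ext_coe hm h f).filter_mono (restr_ae h)).trans ?_
  filter_upwards [ae_restrict_mem hm] with x hx
  rw [indicator_of_mem hx]

theorem ext_adj (hm : MeasurableSet Ω) (h : Ω ⊆ D)
    (f : Lp E 2 ((volume : Measure E3).restrict Ω))
    (g : Lp E 2 ((volume : Measure E3).restrict D)) :
    ⟪ext E hm h f, g⟫_ℝ = ⟪f, res E h g⟫_ℝ := by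
  rw [L2.inner_def, L2.inner_def]
  have e1 : ∫ x, ⟪(ext E hm h f : E3 → E) x, g x⟫_ℝ ∂((volume : Measure E3).restrict D)
      = ∫ x, Ω.indicator (fun x => ⟪f x, g x⟫_ℝ) x ∂((volume : Measure E3).restrict D) := by
    refine integral_congr_ae ?_
    filter_upwards [ext_coe hm h f] with x hx
    rw [hx]
    by_cases hxΩ : x ∈ Ω
    · rw [indicator_of_mem hxΩ, indicator_of_mem hxΩ]
    · rw [indicator_of_notMem hxΩ, indicator_of_notMem hxΩ, inner_zero_left]
  rw [e1, integral_indicator hm, Measure.restrict_restrict hm, inter_eq_left.2 h]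
  refine integral_congr_ae ?_
  filter_upwards [res_coe h g] with x hx
  rw [hx]

end maps

/-- The pairs `(φ, ∇φ)` on `D`, `φ` a test field in `Ω`. -/
noncomputable def preV (D Ω : Set E3) : Submodule ℝ (L2V D × L2M D) where
  carrier := {p | ∃ φ, IsTest Ω φ ∧ p.1 =ᵐ[volume.restrict D] φ ∧
    p.2 =ᵐ[volume.restrict D] jac φ}
  zero_mem' := by
    refine ⟨0, IsTest.zero, ?_, ?_⟩
    · exact Lp.coeFn_zero _ _ _
    · refine (Lp.coeFn_zero _ _ _).trans ?_
      exact Eventually.of_forall (fun x => by simp [jac_zero])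
  add_mem' := by
    rintro p q ⟨φ, h1, h2, h3⟩ ⟨ψ, g1, g2, g3⟩
    refine ⟨φ + ψ, h1.add g1, ?_, ?_⟩
    · exact (Lp.coeFn_add p.1 q.1).trans (h2.add g2)
    · refine (Lp.coeFn_add p.2 q.2).trans ?_
      filter_upwards [h3, g3] with x a b
      simp only [Pi.add_apply]
      rw [a, b, jac_add h1.smooth g1.smooth]
  smul_mem' := by
    rintro c p ⟨φ, h1, h2, h3⟩
    refine ⟨c • φ, h1.smul c, ?_, ?_⟩
    · refine (Lp.coeFn_smul c p.1).trans ?_
      filter_upwards [h2] with x a
      simp [a]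
    · refine (Lp.coeFn_smul c p.2).trans ?_
      filter_upwards [h3] with x a
      simp [a, jac_smul]

/-- `H¹_{0,σ}(Ω)` extended by zero to `D`. -/
noncomputable def extW (D Ω : Set E3) : Submodule ℝ (L2V D × L2M D) :=
  (preV D Ω).topologicalClosure

theorem extW_closed (D Ω : Set E3) : IsClosed (extW D Ω : Set (L2V D × L2M D)) :=
  Submodule.isClosed_topologicalClosure _

theorem extW_coe (D Ω : Set E3) : (extW D Ω : Set (L2V D × L2M D))
    = closure (preV D Ω : Set (L2V D × L2M D)) := Submodule.topologicalClosure_coe _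

theorem isTest_mono {Ω D : Set E3} (h : Ω ⊆ D) {φ : E3 → E3} (hφ : IsTest Ω φ) : IsTest D φ :=
  ⟨hφ.smooth, hφ.compact, hφ.supp.trans h, hφ.divfree⟩

theorem extW_mono {Ω Ω' D : Set E3} (h : Ω ⊆ Ω') : extW D Ω ≤ extW D Ω' := by
  unfold extW
  refine Submodule.topologicalClosure_mono ?_
  rintro p ⟨φ, h1, h2, h3⟩
  exact ⟨φ, isTest_mono h h1, h2, h3⟩

theorem extW_self (D : Set E3) : extW D D = graphW D := rfl

theorem extW_le {Ω D : Set E3} (h : Ω ⊆ D) : extW D Ω ≤ graphW D := extW_mono h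

theorem test_zero {Ω : Set E3} {φ : E3 → E3} (hφ : IsTest Ω φ) {x : E3} (hx : x ∉ Ω) :
    φ x = 0 := image_eq_zero_of_notMem_tsupport fun h => hx (hφ.supp h)

theorem jac_test_zero {Ω : Set E3} {φ : E3 → E3} (hφ : IsTest Ω φ) {x : E3} (hx : x ∉ Ω) :
    jac φ x = 0 := by
  have h1 : fderiv ℝ φ x = 0 := fderiv_of_notMem_tsupport ℝ fun h => hx (hφ.supp h)
  unfold jac
  rw [h1]
  rfl

theorem ind_eq_self {E : Type} [NormedAddCommGroup E] {Ω : Set E3} {f : E3 → E}
    (h : ∀ x, x ∉ Ω → f x = 0) : Ω.indicator f = f := by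
  funext x
  by_cases hx : x ∈ Ω
  · rw [indicator_of_mem hx]
  · rw [indicator_of_notMem hx, h x hx]

theorem preV_fwd {Ω D : Set E3} (hm : MeasurableSet Ω) (h : Ω ⊆ D) {p : L2V Ω × L2M Ω}
    (hp : p ∈ preW Ω) : (ext E3 hm h p.1, ext M3 hm h p.2) ∈ preV D Ω := by
  obtain ⟨φ, h1, h2, h3⟩ := hp
  refine ⟨φ, h1, ?_, ?_⟩
  · refine (ext_coe hm h p.1).trans ((ae_ind hm h2).trans ?_)
    rw [ind_eq_self fun x hx => test_zero h1 hx]
  · refine (ext_coe hm h p.2).trans ((ae_ind hm h3).trans ?_)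
    rw [ind_eq_self fun x hx => jac_test_zero h1 hx]

theorem preV_bwd {Ω D : Set E3} (h : Ω ⊆ D) {p : L2V D × L2M D}
    (hp : p ∈ preV D Ω) : (res E3 h p.1, res M3 h p.2) ∈ preW Ω := by
  obtain ⟨φ, h1, h2, h3⟩ := hp
  exact ⟨φ, h1, (res_coe h p.1).trans (h2.filter_mono (restr_ae h)),
    (res_coe h p.2).trans (h3.filter_mono (restr_ae h))⟩

theorem preV_er {Ω D : Set E3} (hm : MeasurableSet Ω) (h : Ω ⊆ D) {p : L2V D × L2M D}
    (hp : p ∈ preV D Ω) : (ext E3 hm h (res E3 h p.1), ext M3 hm h (res M3 h p.2)) = p := by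
  obtain ⟨φ, h1, h2, h3⟩ := hp
  refine Prod.ext ?_ ?_
  · apply Lp.ext
    refine (ext_coe hm h _).trans ?_
    refine (ae_ind hm ((res_coe h p.1).trans (h2.filter_mono (restr_ae h)))).trans ?_
    rw [ind_eq_self fun x hx => test_zero h1 hx]
    exact h2.symm
  · apply Lp.ext
    refine (ext_coe hm h _).trans ?_
    refine (ae_ind hm ((res_coe h p.2).trans (h3.filter_mono (restr_ae h)))).trans ?_
    rw [ind_eq_self fun x hx => jac_test_zero h1 hx]
    exact h3.symm

theorem ext_tens {Ω D : Set E3} (hm : MeasurableSet Ω) (hD : MeasurableSet D) (h : Ω ⊆ D)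
    {p : L2V Ω × L2M Ω} (hp : p ∈ graphW Ω)
    (hp' : (ext E3 hm h p.1, ext M3 hm h p.2) ∈ graphW D) :
    tensL (ext E3 hm h p.1) = ext M3 hm h (tensL p.1) := by
  apply Lp.ext
  refine (tensL_coe hD hp').trans ?_
  refine EventuallyEq.trans ?_ (ext_coe hm h _).symm
  refine EventuallyEq.trans ?_ (ae_ind hm (tensL_coe hm hp)).symm
  filter_upwards [ext_coe hm h p.1] with x hx
  rw [hx]
  by_cases hxΩ : x ∈ Ω
  · rw [indicator_of_mem hxΩ, indicator_of_mem hxΩ]
  · rw [indicator_of_notMem hxΩ, indicator_of_notMem hxΩ]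
    have h0 : ‖tens (0 : E3)‖ = 0 := by rw [norm_tens]; simp
    exact norm_eq_zero.1 h0

/-- Extension by zero is an embedding of frames. -/
theorem emb_ext {Ω D : Set E3} (hm : MeasurableSet Ω) (hD : MeasurableSet D) (h : Ω ⊆ D) :
    Emb (graphW Ω) tensL (extW D Ω) tensL (ext E3 hm h) (res E3 h) (ext M3 hm h) (res M3 h) := by
  have hf : ∀ p ∈ graphW Ω, (ext E3 hm h p.1, ext M3 hm h p.2) ∈ extW D Ω := by
    intro p hp
    have hp' : p ∈ closure (preW Ω : Set (L2V Ω × L2M Ω)) := by
      have := hp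
      unfold graphW at this
      rwa [← SetLike.mem_coe, Submodule.topologicalClosure_coe] at this
    show _ ∈ (extW D Ω : Set (L2V D × L2M D))
    rw [extW_coe]
    exact map_mem_closure (f := fun p : L2V Ω × L2M Ω => (ext E3 hm h p.1, ext M3 hm h p.2))
      (by fun_prop) hp' fun q hq => preV_fwd hm h hq
  have hcl : ∀ p ∈ extW D Ω, p ∈ closure (preV D Ω : Set (L2V D × L2M D)) := by
    intro p hp
    rw [← extW_coe]
    exact hp
  have her : ∀ p ∈ extW D Ω, (ext E3 hm h (res E3 h p.1), ext M3 hm h (res M3 h p.2)) = p := by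
    intro p hp
    have hc : IsClosed {p : L2V D × L2M D |
        (ext E3 hm h (res E3 h p.1), ext M3 hm h (res M3 h p.2)) = p} :=
      isClosed_eq (by fun_prop) continuous_id
    exact closure_minimal (fun q hq => preV_er hm h hq) hc (hcl p hp)
  refine ⟨ext_adj hm h, ext_adj hm h, res_ext hm h, res_ext hm h, hf, ?_,
    fun p hp => congrArg Prod.fst (her p hp), fun p hp => congrArg Prod.snd (her p hp),
    fun p hp => ext_tens hm hD h hp (extW_le h (hf p hp))⟩
  intro p hp
  show _ ∈ (graphW Ω : Set (L2V Ω × L2M Ω))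
  unfold graphW
  rw [Submodule.topologicalClosure_coe]
  exact map_mem_closure (f := fun p : L2V D × L2M D => (res E3 h p.1, res M3 h p.2))
    (by fun_prop) (hcl p hp) fun q hq => preV_bwd h hq

end Pool.Agent.H303.DS
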