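import Pool.Agent.H303.DS.Mos

set_option autoImplicit false

open MeasureTheory Set Filter Topology
open scoped InnerProductSpace

namespace Pool.Agent.H303.DS

open H772R2.NSR (Frame prim_cont ae_deriv_of_prim memLp_ii joint_cont joint_int m_tendsto unif
  exists_weak_limit mem_of_weak_limit int_sq_le)
open Pool.Agent.W795.TQ
open Pool.Agent.X187.NSC

variable {H K : Type} [NormedAddCommGroup H] [InnerProductSpace ℝ H] [CompleteSpace H]
  [NormedAddCommGroup K] [InnerProductSpace ℝ K] [CompleteSpace K]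
  {W W0 : Submodule ℝ (H × K)} {m : H → K} {C c ν T Φ G N : ℝ} {ι : Type}
  {Wi : ι → Submodule ℝ (H × K)}
  {τ : ι → ℝ} {F F1 : ι → ℝ → K} {u u1 : ι → ℝ → H} {z z1 : ι → ℝ → K}

/-- A family of strong solutions with uniform bounds. -/
structure FamV (Wi : ι → Submodule ℝ (H × K)) (m : H → K) (ν T Φ G N : ℝ) (τ : ι → ℝ)
    (F F1 : ι → ℝ → K) (u u1 : ι → ℝ → H) (z z1 : ι → ℝ → K) : Prop where
  τ0 : ∀ i, 0 < τ i
  τT : ∀ i, τ i ≤ T
  FH : ∀ i, FH T (F i) (F1 i)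
  str : ∀ i, Str (Wi i) m ν (τ i) (F i) (u i) (u1 i) (z i) (z1 i)
  Fb : ∀ i, ∀ t ∈ Icc 0 T, ‖F i t‖ ≤ Φ
  F1b : ∀ i, ∫ s in (0 : ℝ)..T, ‖F1 i s‖ ^ 2 ≤ G
  zb : ∀ i, ∀ t ∈ Icc 0 (τ i), ‖z i t‖ ≤ N

theorem FamV.exists_bd (Fr : ∀ i, Frame (Wi i) m C) (Un : ∀ i, Univ (Wi i) m c) (hc : 0 < c) (hν : 0 < ν) (hT : 0 < T)
    (hΦ : 0 ≤ Φ) (hG : 0 ≤ G) (hN : 0 ≤ N) (S : FamV Wi m ν T Φ G N τ F F1 u u1 z z1) :
    ∃ A, Bd A τ u1 z1 := by
  obtain ⟨A, hA, h⟩ := str_bounds c ν Φ G N T hc hν hΦ hG hN hT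
  have key : ∀ i, _ := fun i => h H K (Wi i) m C 0 (τ i) (F i) (F1 i) (u i) (u1 i) (z i) (z1 i) (Fr i) (Un i)
    le_rfl (S.τ0 i) (by linarith [S.τT i]) (FH.mono (S.FH i) (S.τT i)) (S.str i)
    (fun t ht => S.Fb i t ⟨ht.1, ht.2.trans (S.τT i)⟩)
    (int_sub_le ((memLp_two_iff_integrable_sq_norm (S.FH i).memLp.aestronglyMeasurable).mp
      (S.FH i).memLp) (fun t => by positivity) (S.F1b i) le_rfl (S.τ0 i).le (S.τT i)) (S.zb i)
  exact ⟨A, hA, fun i => (key i).1, fun i => (key i).2.1, fun i => (key i).2.2⟩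

theorem FamV.halfU (S : FamV Wi m ν T Φ G N τ F F1 u u1 z z1) {A : ℝ} (B : Bd A τ u1 z1) :
    ∀ i, ∀ s ∈ Icc 0 T, ∀ t ∈ Icc 0 T, s ≤ t →
      ‖u i (min t (τ i)) - u i (min s (τ i))‖ ^ 2 ≤ A * (t - s) := by
  intro i s hs t ht hst
  have h1 := min_mem hs.1 (S.τ0 i).le
  have h2 := min_mem ht.1 (S.τ0 i).le
  have h3 : min s (τ i) ≤ min t (τ i) := min_le_min_right _ hst
  have hi : IntegrableOn (fun s => ‖u1 i s‖ ^ 2) (Ioc 0 (τ i)) :=
    (memLp_two_iff_integrable_sq_norm (S.str i).u1m.aestronglyMeasurable).mp (S.str i).u1m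
  have h4 := prim_half (S.str i).u1m (S.str i).pu h1.1 h3 h2.2
    (int_sub_le hi (fun t => by positivity) (B.h1 i) h1.1 h3 h2.2)
  refine h4.trans ?_
  exact mul_le_mul_of_nonneg_left (min_diff hst) B.A0.le

theorem FamV.halfZ (S : FamV Wi m ν T Φ G N τ F F1 u u1 z z1) {A : ℝ} (B : Bd A τ u1 z1)
    {a : ℝ} (ha : 0 < a) :
    ∀ i, ∀ s ∈ Icc a T, ∀ t ∈ Icc a T, s ≤ t →
      ‖z i (min t (τ i)) - z i (min s (τ i))‖ ^ 2 ≤ A / a * (t - s) := by
  intro i s hs t ht hst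
  have hA := B.A0
  rcases le_total (τ i) s with h | h
  · rw [min_eq_right h, min_eq_right (h.trans hst), sub_self, norm_zero]
    have h1 : 0 ≤ t - s := by linarith
    have h2 : 0 ≤ A / a * (t - s) := by positivity
    simpa using h2
  · rw [min_eq_left h]
    have h0 : 0 ≤ s := ha.le.trans hs.1
    have h2 := min_mem (h0.trans hst) (S.τ0 i).le
    have h3 : s ≤ min t (τ i) := le_min hst h
    have hi : IntegrableOn (fun s => ‖z1 i s‖ ^ 2) (Ioc 0 (τ i)) :=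
      (memLp_two_iff_integrable_sq_norm (S.str i).z1m.aestronglyMeasurable).mp (S.str i).z1m
    have hi2 : IntegrableOn (fun s => (s - 0) * ‖z1 i s‖ ^ 2) (Ioc 0 (τ i)) := by
      refine (hi.const_mul (τ i)).mono' ?_ ?_
      · exact ((continuous_id.sub continuous_const).aestronglyMeasurable).mul
          hi.aestronglyMeasurable
      · filter_upwards [ae_restrict_mem measurableSet_Ioc] with r hr
        have h1 : 0 ≤ r - 0 := by linarith [hr.1]
        rw [Real.norm_of_nonneg (by positivity)]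
        gcongr
        linarith [hr.2]
    have h5 : ∫ r in s..min t (τ i), ‖z1 i r‖ ^ 2 ≤ A / a := by
      have h6 : ∫ r in s..min t (τ i), ‖z1 i r‖ ^ 2
          ≤ ∫ r in s..min t (τ i), 1 / a * ((r - 0) * ‖z1 i r‖ ^ 2) := by
        refine intervalIntegral.integral_mono_on h3 ?_ ?_ ?_
        · rw [intervalIntegrable_iff_integrableOn_Ioc_of_le h3]
          exact hi.mono_set (Ioc_subset_Ioc h0 h2.2)
        · rw [intervalIntegrable_iff_integrableOn_Ioc_of_le h3]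
          exact (hi2.mono_set (Ioc_subset_Ioc h0 h2.2)).const_mul _
        · intro r hr
          have h7 : a ≤ r - 0 := by linarith [hr.1, hs.1]
          have h8 : 1 ≤ 1 / a * (r - 0) := by
            rw [one_div, inv_mul_eq_div, le_div_iff₀ ha]; linarith
          calc ‖z1 i r‖ ^ 2 = 1 * ‖z1 i r‖ ^ 2 := by ring
            _ ≤ 1 / a * (r - 0) * ‖z1 i r‖ ^ 2 := by gcongr
            _ = _ := by ring
      rw [intervalIntegral.integral_const_mul] at h6
      refine h6.trans ?_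
      have h9 : ∫ r in s..min t (τ i), (r - 0) * ‖z1 i r‖ ^ 2 ≤ A := by
        refine le_trans ?_ (B.h2 i)
        rw [intervalIntegral.integral_of_le h3, intervalIntegral.integral_of_le (S.τ0 i).le]
        refine setIntegral_mono_set hi2 ?_ (Ioc_subset_Ioc h0 h2.2).eventuallyLE
        filter_upwards [ae_restrict_mem measurableSet_Ioc] with r hr
        have h1 : 0 ≤ r - 0 := by linarith [hr.1]
        show 0 ≤ (r - 0) * ‖z1 i r‖ ^ 2
        positivity
      calc 1 / a * ∫ r in s..min t (τ i), (r - 0) * ‖z1 i r‖ ^ 2 ≤ 1 / a * A := by gcongr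
        _ = A / a := by ring
    have h4 := prim_half (S.str i).z1m (S.str i).pz h0 h3 h2.2 h5
    refine h4.trans ?_
    gcongr
    exact min_le_left _ _

omit [CompleteSpace K] in
theorem FamV.lipU (S : FamV Wi m ν T Φ G N τ F F1 u u1 z z1) {A : ℝ} (B : Bd A τ u1 z1)
    {a : ℝ} (ha : 0 < a) :
    ∀ i, ∀ s ∈ Icc a T, ∀ t ∈ Icc a T, s ≤ t →
      ‖u i (min t (τ i)) - u i (min s (τ i))‖ ≤ √(A / a) * (t - s) := by
  intro i s hs t ht hst
  have hA := B.A0
  rcases le_total (τ i) s with h | h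
  · rw [min_eq_right h, min_eq_right (h.trans hst), sub_self, norm_zero]
    have : 0 ≤ t - s := by linarith
    positivity
  · rw [min_eq_left h]
    have h0 : 0 ≤ s := ha.le.trans hs.1
    have h2 := min_mem (h0.trans hst) (S.τ0 i).le
    have h3 : s ≤ min t (τ i) := le_min hst h
    have h4 := prim_lip (M := √(A / a)) (S.str i).pu h0 h3 h2.2 (by
      have hsub : (volume.restrict (Ioc s (min t (τ i))) : Measure ℝ) ≤
        volume.restrict (Ioc 0 (τ i)) := Measure.restrict_mono (Ioc_subset_Ioc h0 h2.2) le_rfl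
      filter_upwards [ae_mono hsub (B.h3 i), ae_restrict_mem measurableSet_Ioc] with r h5 h6
      refine Real.le_sqrt_of_sq_le ?_
      rw [le_div_iff₀ ha]
      have h7 : a * ‖u1 i r‖ ^ 2 ≤ (r - 0) * ‖u1 i r‖ ^ 2 := by
        gcongr
        linarith [h6.1, hs.1]
      linarith)
    refine h4.trans ?_
    gcongr
    exact min_le_left _ _

theorem FamV.ptwise (S : FamV Wi m ν T Φ G N τ F F1 u u1 z z1) (hle : ∀ i, Wi i ≤ W0)
    (U : Ultrafilter ι) (M : MosU U Wi W)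
    (hcomp : ∀ R : ℝ, TotallyBounded {v : H | ∃ z, (v, z) ∈ W0 ∧ ‖z‖ ≤ R})
    {t : ℝ} (ht : 0 ≤ t) :
    ∃ (x : H) (y : K), (x, y) ∈ W ∧ ‖y‖ ≤ N ∧
      Tendsto (fun i => u i (min t (τ i))) U (𝓝 x) ∧
      ∀ k : K, Tendsto (fun i => ⟪z i (min t (τ i)), k⟫_ℝ) U (𝓝 ⟪y, k⟫_ℝ) := by
  have hmem : ∀ i, (u i (min t (τ i)), z i (min t (τ i))) ∈ Wi i := fun i =>
    (S.str i).mem _ (min_mem ht (S.τ0 i).le)
  have hzb : ∀ i, ‖z i (min t (τ i))‖ ≤ N := fun i => S.zb i _ (min_mem ht (S.τ0 i).le)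
  have hK : IsCompact (closure {v : H | ∃ z, (v, z) ∈ W0 ∧ ‖z‖ ≤ N}) :=
    isCompact_iff_totallyBounded_isComplete.mpr
      ⟨(hcomp N).closure, isClosed_closure.isComplete⟩
  obtain ⟨x, -, hu⟩ := hK.ultrafilter_le_nhds (U.map (fun i => u i (min t (τ i)))) (by
    rw [le_principal_iff]
    show _ ∈ Filter.map (fun i => u i (min t (τ i))) (U : Filter ι)
    rw [Filter.mem_map]
    refine Filter.univ_mem' (fun i => ?_)
    exact subset_closure ⟨_, hle i (hmem i), hzb i⟩)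
  have hu' : Tendsto (fun i => u i (min t (τ i))) U (𝓝 x) := hu
  obtain ⟨y, hy0, hy⟩ := exists_weak_limit U (fun i => z i (min t (τ i))) N
    (Eventually.of_forall hzb)
  exact ⟨x, y, M.lim (fun i => (u i (min t (τ i)), z i (min t (τ i)))) (x, y) N hmem hzb hu' hy,
    hy0, hu', hy⟩

end Pool.Agent.H303.DS
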