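import Pool.Agent.H303.DS.Close

set_option autoImplicit false

open MeasureTheory Set Filter Topology
open scoped InnerProductSpace

namespace Pool.Agent.H303.DS

open H772R2.NSR (Frame prim_cont ae_deriv_of_prim memLp_ii)
open Pool.Agent.W795.TQ
open Pool.Agent.X187.NSC hiding fam_close

/-- The gradient at a time at which the state is close in `L²` to a field `p.1` with a bounded
gradient. -/
theorem near_grad {H K : Type} [NormedAddCommGroup H] [InnerProductSpace ℝ H]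
    [NormedAddCommGroup K] [InnerProductSpace ℝ K]
    {W : Submodule ℝ (H × K)} {m : H → K} {C c ν : ℝ} {f z : K} {u u1 : H} {p : H × K}
    {Φ Y : ℝ} (Fr : Frame W m C)
    (Un : Univ W m c) (hν : 0 < ν) (hu : (u, z) ∈ W) (hp : p ∈ W)
    (h : ∀ p ∈ W, ⟪u1, p.1⟫_ℝ = ⟪f - ν • z + m u, p.2⟫_ℝ)
    (hf : ‖f‖ ≤ Φ) (hY : ‖p.2‖ ≤ Y) (hw : ‖u - p.1‖ ≤ 1) :
    ‖z - p.2‖ ^ 2 ≤ 2 / ν * (((Φ + ν * Y + c * (√(C * Y) * √Y ^ 3)) ^ 2 / ν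
      + (c * Y) ^ 4 / (ν / 4) ^ 3) + ‖u - p.1‖ * ‖u1‖) := by
  have hc := Un.c0
  have hC := Fr.C0
  have hY0 : 0 ≤ Y := (norm_nonneg _).trans hY
  have hΦ0 : 0 ≤ Φ := (norm_nonneg _).trans hf
  have hW : (u - p.1, z - p.2) ∈ W := W.sub_mem hu (show (p.1, p.2) ∈ W from hp)
  have e1 := h _ hW
  have e3 := Fr.anti _ hu _ hp
  simp only at e1 e3
  have e4 : ν * ‖z - p.2‖ ^ 2 = ⟪f - ν • p.2 + m p.1, z - p.2⟫_ℝ - ⟪m (u - p.1), p.2⟫_ℝ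
      - ⟪u1, u - p.1⟫_ℝ := by
    rw [e1]
    have e5 : f - ν • z + m u = (f - ν • p.2 + m p.1) - ν • (z - p.2) + (m u - m p.1) := by
      rw [smul_sub]; abel
    rw [e5, inner_add_left _ (m u - m p.1), inner_sub_left, inner_smul_left,
      real_inner_self_eq_norm_sq, e3]
    simp
    ring
  have hq := Un.quart _ hW
  simp only at hq
  set a : ℝ := Φ + ν * Y + c * (√(C * Y) * √Y ^ 3) with ha
  have ha0 : 0 ≤ a := by positivity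
  set ζ := ‖z - p.2‖ with hζ
  have hζ0 : 0 ≤ ζ := norm_nonneg _
  have k0 : ‖f - ν • p.2 + m p.1‖ ≤ a := by
    have h1 := Un.quart _ hp
    have h2 := Fr.poinc _ hp
    have h3 : ‖p.1‖ ≤ C * Y := h2.trans (by gcongr)
    have h4 : ‖m p.1‖ ≤ c * (√(C * Y) * √Y ^ 3) := h1.trans (by gcongr)
    refine (norm_add_le _ _).trans (add_le_add ((norm_sub_le _ _).trans (add_le_add hf ?_)) h4)
    rw [norm_smul, Real.norm_of_nonneg hν.le]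
    gcongr
  have k1 : ⟪f - ν • p.2 + m p.1, z - p.2⟫_ℝ ≤ a * ζ :=
    (real_inner_le_norm _ _).trans (by gcongr)
  have k2 : a * ζ ≤ ν / 4 * ζ ^ 2 + a ^ 2 / ν := by
    have h1 : 0 ≤ (ν / 2 * ζ - a) ^ 2 / ν := by positivity
    have h2 : (ν / 2 * ζ - a) ^ 2 / ν = ν / 4 * ζ ^ 2 - a * ζ + a ^ 2 / ν := by
      field_simp; ring
    linarith
  have k3 : -⟪m (u - p.1), p.2⟫_ℝ ≤ c * Y * √ζ ^ 3 := by
    have h1 : -⟪m (u - p.1), p.2⟫_ℝ ≤ ‖m (u - p.1)‖ * ‖p.2‖ :=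
      (neg_le_abs _).trans (abs_real_inner_le_norm _ _)
    have h2 : √‖u - p.1‖ ≤ 1 := Real.sqrt_le_one.2 hw
    calc -⟪m (u - p.1), p.2⟫_ℝ ≤ ‖m (u - p.1)‖ * ‖p.2‖ := h1
      _ ≤ (c * (√‖u - p.1‖ * √ζ ^ 3)) * Y := by gcongr
      _ ≤ (c * (1 * √ζ ^ 3)) * Y := by gcongr
      _ = c * Y * √ζ ^ 3 := by ring
  have k4 := cube_young (a := c * Y) (b := ν / 4) (x := √ζ) (by positivity) (by positivity)
    (Real.sqrt_nonneg _)
  have k5 : √ζ ^ 4 = ζ ^ 2 := by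
    have : √ζ ^ 4 = (√ζ ^ 2) ^ 2 := by ring
    rw [this, Real.sq_sqrt hζ0]
  rw [k5] at k4
  have k6 : -⟪u1, u - p.1⟫_ℝ ≤ ‖u - p.1‖ * ‖u1‖ := by
    have h1 : -⟪u1, u - p.1⟫_ℝ ≤ ‖u1‖ * ‖u - p.1‖ :=
      (neg_le_abs _).trans (abs_real_inner_le_norm _ _)
    linarith
  have k7 : ν / 2 * ζ ^ 2 ≤ (a ^ 2 / ν + (c * Y) ^ 4 / (ν / 4) ^ 3) + ‖u - p.1‖ * ‖u1‖ := by
    linarith
  have k8 : ζ ^ 2 = 2 / ν * (ν / 2 * ζ ^ 2) := by field_simp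
  rw [k8]
  gcongr

set_option maxHeartbeats 4000000 in
/-- A strong solution which is close in `L²` to fields with gradients bounded by `Y` has a gradient
bounded independently of the bound `N` which is known a priori. -/
theorem far_near (C c ν R Φ G T0 Y : ℝ) (hC : 0 < C) (hc : 0 < c) (hν : 0 < ν) (hR : 0 ≤ R)
    (hΦ : 0 ≤ Φ) (hG : 0 ≤ G) (hT0 : 0 < T0) :
    ∃ N0 : ℝ, 0 < N0 ∧ ∀ N : ℝ, 0 ≤ N → ∃ η : ℝ, 0 < η ∧ ∀ (H K : Type) [NormedAddCommGroup H]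
      [InnerProductSpace ℝ H] [CompleteSpace H] [NormedAddCommGroup K] [InnerProductSpace ℝ K]
      [CompleteSpace K]
      (W : Submodule ℝ (H × K)) (m : H → K) (τ : ℝ) (F F1 : ℝ → K) (u u1 : ℝ → H)
      (z z1 : ℝ → K), Frame W m C → Univ W m c → 0 < τ → τ ≤ T0 →
      FH τ F F1 → Str W m ν τ F u u1 z z1 → (∀ t ∈ Icc 0 τ, ‖F t‖ ≤ Φ) →
      (∫ s in (0 : ℝ)..τ, ‖F1 s‖ ^ 2) ≤ G → ‖z 0‖ ≤ R → (∀ t ∈ Icc 0 τ, ‖z t‖ ≤ N) →
      (∀ t ∈ Icc 0 τ, ∃ p ∈ W, ‖p.2‖ ≤ Y ∧ ‖u t - p.1‖ ≤ η) → ∀ t ∈ Icc 0 τ, ‖z t‖ ≤ N0 := by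
  obtain ⟨δ, B, A, hδ, hB, hA, hloc⟩ := loc_bound c ν R Φ G T0 hc hν hR hΦ hG hT0
  set k : ℝ := 14 * c ^ 4 / ν ^ 3 with hk
  have hk0 : 0 < k := by positivity
  set K0 : ℝ := (Φ + ν * Y + c * (√(C * Y) * √Y ^ 3)) ^ 2 / ν + (c * Y) ^ 4 / (ν / 4) ^ 3 with hK0
  have hK00 : 0 ≤ K0 := by
    have h1 : (0 : ℝ) ≤ (c * Y) ^ 4 := by positivity
    positivity
  set E : ℝ := k * (8 * Y ^ 4 + 64 / ν ^ 2 * K0 ^ 2) * T0 + 1 with hE
  set Q : ℝ := (2 * A / δ + 2 / ν * G) * Real.exp E with hQ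
  have hQ0 : 0 ≤ Q := by positivity
  set N0 : ℝ := B + (Φ + C * √Q) / ν with hN0
  have hN00 : 0 ≤ (Φ + C * √Q) / ν := by positivity
  refine ⟨N0, by positivity, ?_⟩
  intro N hN
  obtain ⟨AN, hAN, hstr⟩ := str_bounds c ν Φ G N T0 hc hν hΦ hG hN hT0
  set η : ℝ := min 1 (√(1 / (k * (64 / ν ^ 2) * AN))) with hη
  have hη0 : 0 < η := lt_min one_pos (Real.sqrt_pos.2 (by positivity))
  have hη1 : η ≤ 1 := min_le_left _ _
  have hη2 : k * (64 / ν ^ 2) * AN * η ^ 2 ≤ 1 := by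
    have h1 : η ^ 2 ≤ 1 / (k * (64 / ν ^ 2) * AN) := by
      calc η ^ 2 ≤ (√(1 / (k * (64 / ν ^ 2) * AN))) ^ 2 := by
            gcongr
            exact min_le_right _ _
        _ = _ := Real.sq_sqrt (by positivity)
    calc k * (64 / ν ^ 2) * AN * η ^ 2
        ≤ k * (64 / ν ^ 2) * AN * (1 / (k * (64 / ν ^ 2) * AN)) := by gcongr
      _ = 1 := by field_simp
  refine ⟨η, hη0, ?_⟩
  intro H K _ _ _ _ _ _ W m τ F F1 u u1 z z1 Fr Un hτ hτT0 hF S hFb hFG hzR hzN huv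
  have hzc : ContinuousOn z (Icc 0 τ) := prim_cont S.z1m S.pz
  have hF1i : IntegrableOn (fun s => ‖F1 s‖ ^ 2) (Ioc 0 τ) :=
    (memLp_two_iff_integrable_sq_norm hF.memLp.aestronglyMeasurable).mp hF.memLp
  have hu1i : IntegrableOn (fun s => ‖u1 s‖ ^ 2) (Ioc 0 τ) :=
    (memLp_two_iff_integrable_sq_norm S.u1m.aestronglyMeasurable).mp S.u1m
  by_cases hcase : τ ≤ δ
  · intro t ht
    have h1 := (hloc H K W m C 0 τ F F1 u u1 z z1 Fr Un le_rfl hτ hτT0 (by linarith) hF S hFb hFG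
      hzR).1 t ht
    rw [hN0]; linarith
  push Not at hcase
  -- the first part
  have hδτ : δ ≤ τ := hcase.le
  obtain ⟨hzB, -, ha⟩ := hloc H K W m C 0 δ F F1 u u1 z z1 Fr Un le_rfl hδ (hδτ.trans hτT0)
    (by linarith) (FH.mono hF hδτ) (S.mono hδτ) (fun t ht => hFb t ⟨ht.1, ht.2.trans hδτ⟩)
    (int_sub_le hF1i (fun t => by positivity) hFG le_rfl hδ.le hδτ) hzR
  -- a good time
  obtain ⟨r, hr, dr, hur⟩ : ∃ r ∈ Ioo (δ / 2) δ, HasDerivAt u (u1 r) r ∧ ‖u1 r‖ ^ 2 ≤ 2 * A / δ := by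
    have hsub : (volume.restrict (Ioo (δ / 2) δ) : Measure ℝ) ≤ volume.restrict (Ioc 0 δ) :=
      Measure.restrict_mono (show Ioo (δ / 2) δ ⊆ Ioc 0 δ from
        fun s hs => ⟨by linarith [hs.1], hs.2.le⟩) le_rfl
    have hsub2 : (volume.restrict (Ioo (δ / 2) δ) : Measure ℝ) ≤ volume.restrict (Ioc 0 τ) :=
      Measure.restrict_mono (show Ioo (δ / 2) δ ⊆ Ioc 0 τ from
        fun s hs => ⟨by linarith [hs.1], by linarith [hs.2]⟩) le_rfl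
    have h1 : ∀ᵐ s ∂(volume.restrict (Ioo (δ / 2) δ)), s ∈ Ioo (δ / 2) δ ∧
        HasDerivAt u (u1 s) s ∧ ‖u1 s‖ ^ 2 ≤ 2 * A / δ := by
      filter_upwards [ae_mono hsub ha, ae_mono hsub2
        (ae_deriv_of_prim hτ (memLp_ii hτ.le S.u1m) S.pu), ae_restrict_mem measurableSet_Ioo]
        with s h1 h2 h3
      refine ⟨h3, h2, ?_⟩
      rw [le_div_iff₀ hδ]
      rw [sub_zero] at h1
      have h4 : δ / 2 * ‖u1 s‖ ^ 2 ≤ s * ‖u1 s‖ ^ 2 := by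
        gcongr
        exact h3.1.le
      linarith
    have hne : (volume.restrict (Ioo (δ / 2) δ) : Measure ℝ) ≠ 0 := by
      rw [Ne, Measure.restrict_eq_zero, Real.volume_Ioo]
      simp only [ENNReal.ofReal_eq_zero, not_le]
      linarith
    have : (ae (volume.restrict (Ioo (δ / 2) δ) : Measure ℝ)).NeBot := ae_neBot.2 hne
    obtain ⟨r, hr⟩ := h1.exists
    exact ⟨r, hr⟩
  have hr0 : 0 < r := by linarith [hr.1]
  have hrτ : r < τ := hr.2.trans hcase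
  have hgr := u1_gron Fr Un hν hF S hFG hr0.le hrτ dr
  obtain ⟨hAN', -, -⟩ := hstr H K W m C 0 τ F F1 u u1 z z1 Fr Un le_rfl hτ (by linarith) hF S hFb
    hFG hzN
  have hdw := str_deriv_weak Fr hτ hF S
  -- pointwise bound of the gradient
  have hz4 : ∀ᵐ t ∂(volume.restrict (Ioc 0 τ)), k * ‖z t‖ ^ 4
      ≤ k * (8 * Y ^ 4 + 64 / ν ^ 2 * K0 ^ 2) + k * (64 / ν ^ 2) * η ^ 2 * ‖u1 t‖ ^ 2 := by
    filter_upwards [hdw, ae_restrict_mem measurableSet_Ioc] with t h1 hts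
    have htI := Ioc_subset_Icc_self hts
    obtain ⟨p, hpW, hy, hw⟩ := huv t htI
    have h4 := near_grad Fr Un hν (S.mem t htI) hpW h1 (hFb t htI) hy (hw.trans hη1)
    rw [← hK0] at h4
    have h5 : ‖z t - p.2‖ ^ 2 ≤ 2 / ν * (K0 + η * ‖u1 t‖) := h4.trans (by gcongr)
    have h6 : ‖z t - p.2‖ ^ 4 ≤ 8 / ν ^ 2 * (K0 ^ 2 + η ^ 2 * ‖u1 t‖ ^ 2) := by
      calc ‖z t - p.2‖ ^ 4 = (‖z t - p.2‖ ^ 2) ^ 2 := by ring
        _ ≤ (2 / ν * (K0 + η * ‖u1 t‖)) ^ 2 := by gcongr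
        _ = 4 / ν ^ 2 * (K0 + η * ‖u1 t‖) ^ 2 := by field_simp; ring
        _ ≤ 4 / ν ^ 2 * (2 * (K0 ^ 2 + η ^ 2 * ‖u1 t‖ ^ 2)) := by
          gcongr
          nlinarith [sq_nonneg (K0 - η * ‖u1 t‖)]
        _ = _ := by ring
    have h7 : ‖z t‖ ≤ ‖p.2‖ + ‖z t - p.2‖ := by
      calc ‖z t‖ = ‖p.2 + (z t - p.2)‖ := by congr 1; abel
        _ ≤ _ := norm_add_le _ _
    have h8 : ‖z t‖ ^ 4 ≤ 8 * Y ^ 4 + 64 / ν ^ 2 * K0 ^ 2 + 64 / ν ^ 2 * (η ^ 2 * ‖u1 t‖ ^ 2) := by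
      calc ‖z t‖ ^ 4 ≤ (‖p.2‖ + ‖z t - p.2‖) ^ 4 := by gcongr
        _ ≤ 8 * (‖p.2‖ ^ 4 + ‖z t - p.2‖ ^ 4) := four_le
        _ ≤ 8 * (Y ^ 4 + 8 / ν ^ 2 * (K0 ^ 2 + η ^ 2 * ‖u1 t‖ ^ 2)) := by gcongr
        _ = _ := by ring
    calc k * ‖z t‖ ^ 4 ≤ k * (8 * Y ^ 4 + 64 / ν ^ 2 * K0 ^ 2
          + 64 / ν ^ 2 * (η ^ 2 * ‖u1 t‖ ^ 2)) := by gcongr
      _ = _ := by ring
  have hYn : 0 ≤ 8 * Y ^ 4 + 64 / ν ^ 2 * K0 ^ 2 := by
    have h1 : (0 : ℝ) ≤ Y ^ 4 := by positivity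
    positivity
  have hint : ∀ t ∈ Ioc r τ, ∫ s in r..t, k * ‖z s‖ ^ 4 ≤ E := by
    intro t ht
    have hsub : (volume.restrict (Ioc r t) : Measure ℝ) ≤ volume.restrict (Ioc 0 τ) :=
      Measure.restrict_mono (Ioc_subset_Ioc hr0.le ht.2) le_rfl
    have i1 : IntegrableOn (fun s => k * ‖z s‖ ^ 4) (Ioc r t) :=
      ((continuousOn_const.mul (hzc.norm.pow 4)).integrableOn_Icc (μ := volume)
        (a := 0) (b := τ) |>.mono_set (fun s hs => ⟨by linarith [hs.1], hs.2.trans ht.2⟩))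
    have i3 : IntegrableOn (fun s => k * (64 / ν ^ 2) * η ^ 2 * ‖u1 s‖ ^ 2) (Ioc r t) :=
      (hu1i.mono_set (Ioc_subset_Ioc hr0.le ht.2)).const_mul _
    have i4 : IntegrableOn (fun _ : ℝ => k * (8 * Y ^ 4 + 64 / ν ^ 2 * K0 ^ 2)) (Ioc r t) :=
      (continuousOn_const.integrableOn_Icc).mono_set Ioc_subset_Icc_self
    have i34 : IntegrableOn (fun s => k * (8 * Y ^ 4 + 64 / ν ^ 2 * K0 ^ 2)
      + k * (64 / ν ^ 2) * η ^ 2 * ‖u1 s‖ ^ 2) (Ioc r t) := i4.add i3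
    have h1 := integral_mono_ae i1 i34 (ae_mono hsub hz4)
    rw [intervalIntegral.integral_of_le ht.1.le]
    refine h1.trans ?_
    have e1 : ∫ s in Ioc r t, (k * (8 * Y ^ 4 + 64 / ν ^ 2 * K0 ^ 2)
        + k * (64 / ν ^ 2) * η ^ 2 * ‖u1 s‖ ^ 2)
        = k * (8 * Y ^ 4 + 64 / ν ^ 2 * K0 ^ 2) * (t - r)
          + k * (64 / ν ^ 2) * η ^ 2 * ∫ s in Ioc r t, ‖u1 s‖ ^ 2 := by
      rw [← integral_const_mul]
      have := integral_add i4 i3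
      refine this.trans ?_
      congr 1
      rw [setIntegral_const]
      simp only [Measure.real, Real.volume_Ioc, smul_eq_mul]
      rw [ENNReal.toReal_ofReal (by linarith [ht.1])]
      ring
    rw [e1, hE]
    have h2 : ∫ s in Ioc r t, ‖u1 s‖ ^ 2 ≤ AN := by
      rw [← intervalIntegral.integral_of_le ht.1.le]
      exact int_sub_le hu1i (fun t => by positivity) hAN' hr0.le ht.1.le ht.2
    have h3 : k * (64 / ν ^ 2) * η ^ 2 * ∫ s in Ioc r t, ‖u1 s‖ ^ 2 ≤ 1 := by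
      calc k * (64 / ν ^ 2) * η ^ 2 * ∫ s in Ioc r t, ‖u1 s‖ ^ 2
          ≤ k * (64 / ν ^ 2) * η ^ 2 * AN := by gcongr
        _ = k * (64 / ν ^ 2) * AN * η ^ 2 := by ring
        _ ≤ 1 := hη2
    have h4 : k * (8 * Y ^ 4 + 64 / ν ^ 2 * K0 ^ 2) * (t - r)
        ≤ k * (8 * Y ^ 4 + 64 / ν ^ 2 * K0 ^ 2) * T0 := by
      have : t - r ≤ T0 := by linarith [ht.2]
      gcongr
    linarith
  have hfin : ∀ᵐ t ∂(volume.restrict (Ioc r τ)), ‖z t‖ ≤ (Φ + C * √Q) / ν := by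
    have hsub : (volume.restrict (Ioc r τ) : Measure ℝ) ≤ volume.restrict (Ioc 0 τ) :=
      Measure.restrict_mono (Ioc_subset_Ioc_left hr0.le) le_rfl
    filter_upwards [hgr, ae_mono hsub hdw, ae_restrict_mem measurableSet_Ioc] with t h1 h2 hts
    have htI : t ∈ Icc 0 τ := ⟨by linarith [hts.1], hts.2⟩
    have h3 := hint t hts
    have h4 : ‖u1 t‖ ^ 2 ≤ Q := by
      refine h1.trans ?_
      rw [hQ]
      have : Real.exp (∫ s in r..t, 14 * c ^ 4 / ν ^ 3 * ‖z s‖ ^ 4) ≤ Real.exp E :=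
        Real.exp_le_exp.2 h3
      gcongr
    have h5 : ‖u1 t‖ ≤ √Q := Real.le_sqrt_of_sq_le h4
    have h6 := grad_le Fr hν (S.mem t htI) h2
    rw [le_div_iff₀ hν]
    have h7 := hFb t htI
    have h8 : C * ‖u1 t‖ ≤ C * √Q := by gcongr
    linarith
  intro t ht
  rcases le_total t r with h | h
  · have := hzB t ⟨ht.1, h.trans hr.2.le⟩
    rw [hN0]; linarith
  · have h1 := ae_le_all hrτ ((hzc.mono (Icc_subset_Icc_left hr0.le)).norm) hfin t ⟨h, ht.2⟩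
    rw [hN0]; linarith

end Pool.Agent.H303.DS
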