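import Pool.Graph.R_pool_sql_team_seeded_64922ed1.X187.NSC.Core

/-!
Convergence of closed subspaces in the sense of Mosco, and families of strong solutions of the
equations in converging subspaces.
-/

set_option autoImplicit false

open MeasureTheory Set Filter Topology
open scoped InnerProductSpace

namespace Pool.Agent.H303.DS

open H772R2.NSR (Frame prim_cont ae_deriv_of_prim memLp_ii joint_cont joint_int m_tendsto unif
  exists_weak_limit mem_of_weak_limit int_sq_le)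
open Pool.Agent.W795.TQ
open Pool.Agent.X187.NSC

section sub

variable {H K : Type} [NormedAddCommGroup H] [InnerProductSpace ℝ H]
  [NormedAddCommGroup K] [InnerProductSpace ℝ K]
  {W W' : Submodule ℝ (H × K)} {m : H → K} {C c : ℝ}

/-- A closed subspace of a frame is a frame. -/
theorem frame_sub (Fr : Frame W m C) (hle : W' ≤ W) (hcl : IsClosed (W' : Set (H × K))) :
    Frame W' m C where
  C0 := Fr.C0
  closedW := hcl
  uniq := fun p hp => Fr.uniq p (hle hp)
  poinc := fun p hp => Fr.poinc p (hle hp)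
  ortho := fun p hp => Fr.ortho p (hle hp)
  anti := fun p hp q hq => Fr.anti p (hle hp) q (hle hq)
  quart := fun p hp => Fr.quart p (hle hp)
  lips := fun p hp q hq => Fr.lips p (hle hp) q (hle hq)

theorem univ_sub (Un : Univ W m c) (hle : W' ≤ W) : Univ W' m c where
  c0 := Un.c0
  quart := fun p hp => Un.quart p (hle hp)
  tri := fun p hp q hq => Un.tri p (hle hp) q (hle hq)

theorem tb_sub (h : ∀ R : ℝ, TotallyBounded {v : H | ∃ z, (v, z) ∈ W ∧ ‖z‖ ≤ R}) (hle : W' ≤ W) :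
    ∀ R : ℝ, TotallyBounded {v : H | ∃ z, (v, z) ∈ W' ∧ ‖z‖ ≤ R} := fun R =>
  (h R).subset (by
    rintro v ⟨z, h1, h2⟩
    exact ⟨z, hle h1, h2⟩)

end sub

section mosco

variable {H K : Type} [NormedAddCommGroup H] [InnerProductSpace ℝ H]
  [NormedAddCommGroup K] [InnerProductSpace ℝ K]

/-- Mosco convergence of a sequence of subspaces. -/
structure MosS (Wn : ℕ → Submodule ℝ (H × K)) (W : Submodule ℝ (H × K)) : Prop where
  recov : ∀ p ∈ W, ∃ q : ℕ → H × K, (∀ n, q n ∈ Wn n) ∧ Tendsto q atTop (𝓝 p)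
  lim : ∀ φ : ℕ → ℕ, StrictMono φ → ∀ (q : ℕ → H × K) (p : H × K), (∀ n, q n ∈ Wn (φ n)) →
    (∀ h, Tendsto (fun n => ⟪(q n).1, h⟫_ℝ) atTop (𝓝 ⟪p.1, h⟫_ℝ)) →
    (∀ k, Tendsto (fun n => ⟪(q n).2, k⟫_ℝ) atTop (𝓝 ⟪p.2, k⟫_ℝ)) → p ∈ W

/-- The form of the convergence which is used, along an ultrafilter. -/
structure MosU {ι : Type} (U : Ultrafilter ι) (Wi : ι → Submodule ℝ (H × K))
    (W : Submodule ℝ (H × K)) : Prop where
  recov : ∀ p ∈ W, ∃ q : ι → H × K, (∀ i, q i ∈ Wi i) ∧ Tendsto q U (𝓝 p)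
  lim : ∀ (q : ι → H × K) (p : H × K) (N : ℝ), (∀ i, q i ∈ Wi i) → (∀ i, ‖(q i).2‖ ≤ N) →
    Tendsto (fun i => (q i).1) U (𝓝 p.1) →
    (∀ k, Tendsto (fun i => ⟪(q i).2, k⟫_ℝ) U (𝓝 ⟪p.2, k⟫_ℝ)) → p ∈ W

theorem MosS.comp {Wn : ℕ → Submodule ℝ (H × K)} {W : Submodule ℝ (H × K)} (h : MosS Wn W)
    {φ : ℕ → ℕ} (hφ : StrictMono φ) : MosS (fun n => Wn (φ n)) W where
  recov := fun p hp => by
    obtain ⟨q, h1, h2⟩ := h.recov p hp
    exact ⟨fun n => q (φ n), fun n => h1 _, h2.comp hφ.tendsto_atTop⟩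
  lim := fun ψ hψ q p h1 h2 h3 => h.lim (fun n => φ (ψ n)) (hφ.comp hψ) q p h1 h2 h3

/-- weak convergence of a bounded sequence, tested with a dense sequence. -/
theorem weak_of_dense {E : Type} [NormedAddCommGroup E] [InnerProductSpace ℝ E] {f : ℕ → E}
    (hf : DenseRange f) {q : ℕ → E} {p : E} {N : ℝ} (hN : ∀ n, ‖q n - p‖ ≤ N)
    (h : ∀ j, Tendsto (fun n => ⟪q n - p, f j⟫_ℝ) atTop (𝓝 0)) (k : E) :
    Tendsto (fun n => ⟪q n, k⟫_ℝ) atTop (𝓝 ⟪p, k⟫_ℝ) := by
  have hN0 : 0 ≤ N := (norm_nonneg _).trans (hN 0)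
  rw [Metric.tendsto_nhds]
  intro ε hε
  obtain ⟨j, hj⟩ := hf.exists_dist_lt k (show 0 < ε / (2 * (N + 1)) by positivity)
  have h1 := (Metric.tendsto_nhds.1 (h j)) (ε / 2) (by positivity)
  filter_upwards [h1] with n hn
  rw [dist_zero_right] at hn
  rw [Real.dist_eq, ← inner_sub_left]
  have e : ⟪q n - p, k⟫_ℝ = ⟪q n - p, f j⟫_ℝ + ⟪q n - p, k - f j⟫_ℝ := by
    rw [← inner_add_right]; congr 1; abel
  rw [e]
  have h2 : |⟪q n - p, k - f j⟫_ℝ| ≤ N * (ε / (2 * (N + 1))) := by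
    refine (abs_real_inner_le_norm _ _).trans ?_
    have h3 := hN n
    rw [dist_eq_norm] at hj
    gcongr
  have h4 : N * (ε / (2 * (N + 1))) ≤ ε / 2 := by
    rw [mul_div_assoc', div_le_iff₀ (by positivity)]
    nlinarith
  have h5 : |⟪q n - p, f j⟫_ℝ| < ε / 2 := hn
  calc |⟪q n - p, f j⟫_ℝ + ⟪q n - p, k - f j⟫_ℝ|
      ≤ |⟪q n - p, f j⟫_ℝ| + |⟪q n - p, k - f j⟫_ℝ| := abs_add_le _ _
    _ < ε := by linarith

/-- Along an ultrafilter a sequence which converges strongly in the first and weakly in the second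
component has a subsequence with the same limit. -/
theorem MosS.toU [TopologicalSpace.SeparableSpace K] {Wn : ℕ → Submodule ℝ (H × K)}
    {W : Submodule ℝ (H × K)} (h : MosS Wn W) (U : Ultrafilter ℕ) (hU : (U : Filter ℕ) ≤ atTop) :
    MosU U Wn W where
  recov := fun p hp => by
    obtain ⟨q, h1, h2⟩ := h.recov p hp
    exact ⟨q, h1, h2.mono_left hU⟩
  lim := fun q p N h1 h2 h3 h4 => by
    have : Nonempty K := ⟨0⟩
    set f : ℕ → K := TopologicalSpace.denseSeq K with hf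
    have hfd : DenseRange f := TopologicalSpace.denseRange_denseSeq K
    have hP : ∀ l : ℕ, ∃ᶠ n in atTop, (dist (q n).1 p.1 < 1 / ((l : ℝ) + 1) ∧
        ∀ j ∈ Finset.range (l + 1), |⟪(q n).2 - p.2, f j⟫_ℝ| < 1 / ((l : ℝ) + 1)) := by
      intro l
      have hl : (0 : ℝ) < 1 / ((l : ℝ) + 1) := by positivity
      have k1 : ∀ᶠ n in (U : Filter ℕ), dist (q n).1 p.1 < 1 / ((l : ℝ) + 1) :=
        (Metric.tendsto_nhds.1 h3) _ hl
      have k2 : ∀ᶠ n in (U : Filter ℕ), ∀ j ∈ Finset.range (l + 1),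
          |⟪(q n).2 - p.2, f j⟫_ℝ| < 1 / ((l : ℝ) + 1) := by
        rw [Filter.eventually_all_finset]
        intro j _
        filter_upwards [(Metric.tendsto_nhds.1 (h4 (f j))) _ hl] with n hn
        rw [Real.dist_eq, ← inner_sub_left] at hn
        exact hn
      exact (k1.and k2).frequently.filter_mono hU
    obtain ⟨φ, hφ, hφP⟩ := extraction_forall_of_frequently hP
    have hlim0 : Tendsto (fun l : ℕ => 1 / ((l : ℝ) + 1)) atTop (𝓝 0) :=
      tendsto_one_div_add_atTop_nhds_zero_nat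
    refine h.lim φ hφ (fun n => q (φ n)) p (fun n => h1 _) ?_ ?_
    · intro k
      have k1 : Tendsto (fun n => (q (φ n)).1) atTop (𝓝 p.1) := by
        rw [tendsto_iff_dist_tendsto_zero]
        exact squeeze_zero (fun _ => dist_nonneg) (fun l => (hφP l).1.le) hlim0
      exact k1.inner tendsto_const_nhds
    · refine weak_of_dense hfd (N := N + ‖p.2‖) (fun n => ?_) fun j => ?_
      · exact (norm_sub_le _ _).trans (by
          have := h2 (φ n)
          linarith)
      · rw [tendsto_zero_iff_abs_tendsto_zero]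
        refine squeeze_zero' (Eventually.of_forall fun _ => abs_nonneg _) ?_ hlim0
        filter_upwards [eventually_ge_atTop j] with l hl
        exact ((hφP l).2 j (Finset.mem_range.2 (by omega))).le

end mosco

end Pool.Agent.H303.DS
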