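import Pool.Agent.H303.DS.Core

set_option autoImplicit false

open MeasureTheory Set Filter Topology
open scoped InnerProductSpace

namespace Pool.Agent.H303.DS

open H772R2.NSR (Frame prim_cont ae_deriv_of_prim memLp_ii joint_cont joint_int m_tendsto unif
  exists_weak_limit mem_of_weak_limit int_sq_le grad_unique)
open Pool.Agent.W795.TQ
open Pool.Agent.X187.NSC hiding fam_close weak_limit core open_ultra

section

variable {H K : Type} [NormedAddCommGroup H] [InnerProductSpace ℝ H] [CompleteSpace H]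
  [NormedAddCommGroup K] [InnerProductSpace ℝ K] [CompleteSpace K]
  {W W0 : Submodule ℝ (H × K)} {m : H → K} {C c ν T : ℝ}

/-- The limit of data with strong solutions with bounded gradients has a strong solution. -/
theorem limit_good (Fr0 : Frame W0 m C) (Un0 : Univ W0 m c) (hW : W ≤ W0)
    (hWc : IsClosed (W : Set (H × K))) (hν : 0 < ν) (hT : 0 < T)
    (hcomp : ∀ R : ℝ, TotallyBounded {v : H | ∃ z, (v, z) ∈ W0 ∧ ‖z‖ ≤ R})
    {R L : ℝ} (hR0 : 0 ≤ R) (hL : 0 ≤ L) {e : Dat H K} (he : Adm W m ν T e)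
    (ι : Type) (U : Ultrafilter ι) (Wi : ι → Submodule ℝ (H × K)) (d : ι → Dat H K)
    (hle : ∀ i, Wi i ≤ W0) (hcl : ∀ i, IsClosed (Wi i : Set (H × K))) (M : MosU U Wi W)
    (hd : ∀ i, Adm (Wi i) m ν T (d i)) (hR2 : ∀ i, ‖(d i).F 0‖ ≤ R)
    (hR3 : ∀ i, (∫ s in (0 : ℝ)..T, ‖(d i).F1 s‖ ^ 2) ≤ R)
    (hx : Tendsto (fun i => (d i).x) U (𝓝 e.x))
    (hFl : ∀ t ∈ Icc 0 T, ∀ k, Tendsto (fun i => ⟪(d i).F t, k⟫_ℝ) U (𝓝 ⟪e.F t, k⟫_ℝ))
    (hs : ∀ i, ∃ (u u1 : ℝ → H) (z z1 : ℝ → K), Str (Wi i) m ν T (d i).F u u1 z z1 ∧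
      u 0 = (d i).x ∧ ∀ t ∈ Icc 0 T, ‖z t‖ ≤ L) : Good W m ν T e := by
  have Fr : Frame W m C := frame_sub Fr0 hW hWc
  choose u u1 z z1 h1 h2 h3 using hs
  set N : ℝ := max L ‖e.z‖ + 1 with hN
  have hzN : ‖e.z‖ < N := by
    have := le_max_right L ‖e.z‖
    linarith
  obtain ⟨τ, v, v1, y, y1, k1, k2, Sv, k4, k5⟩ := Pool.Agent.W52.TQ.proof_loc H K W m C ν T
    e.F e.F1 e.x e.g e.z N Fr (tb_sub hcomp hW) hν hT he.force he.mem he.comp hzN
  rcases k5 with k5 | k5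
  · exact ⟨v, v1, y, y1, k5 ▸ Sv, k4⟩
  exfalso
  have hII : ∀ t ∈ Icc 0 τ, t ∈ Icc 0 T := fun t ht => ⟨ht.1, ht.2.trans k2⟩
  have hF1i : ∀ i, IntegrableOn (fun s => ‖(d i).F1 s‖ ^ 2) (Ioc 0 T) := fun i =>
    (memLp_two_iff_integrable_sq_norm (hd i).force.memLp.aestronglyMeasurable).mp
      (hd i).force.memLp
  have S : FamV Wi m ν τ (R + √(R * T)) R L (fun _ => τ) (fun i => (d i).F) (fun i => (d i).F1)
      u u1 z z1 :=
    ⟨fun _ => k1, fun _ => le_rfl, fun i => FH.mono (hd i).force k2, fun i => (h1 i).mono k2,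
      fun i t ht => force_le hT.le (hd i).force hR0 (hR2 i) (hR3 i) t (hII t ht),
      fun i => int_sub_le (hF1i i) (fun t => by positivity) (hR3 i) le_rfl k1.le k2,
      fun i t ht => h3 i t (hII t ht)⟩
  have hx' : Tendsto (fun i => u i 0) U (𝓝 (v 0)) := by
    rw [k4]
    exact hx.congr fun i => (h2 i).symm
  have hcl' := fam_close Fr0 Un0 hle hcl hW hWc hν k1 (by positivity) hR0 hL S U M hcomp
    (FH.mono he.force k2) Sv hx' (fun t ht => hFl t (hII t ht))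
  obtain ⟨x, q, hxq, hqL, hux, -⟩ := S.ptwise hle U M hcomp k1.le
  have hux' : Tendsto (fun i => u i τ) U (𝓝 x) := hux.congr fun i => by rw [min_self]
  have huv : Tendsto (fun i => u i τ) U (𝓝 (v τ)) := by
    rw [Metric.tendsto_nhds]
    intro ε hε
    filter_upwards [hcl' (ε / 2) (by positivity)] with i hi
    rw [dist_eq_norm]
    have := hi τ ⟨k1.le, le_rfl⟩
    linarith
  have hxv : x = v τ := tendsto_nhds_unique hux' huv
  rw [hxv] at hxq
  have hqy : q = y τ := grad_unique Fr hxq (Sv.mem τ ⟨k1.le, le_rfl⟩)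
  rw [hqy] at hqL
  have := le_max_left L ‖e.z‖
  linarith

/-- The Riesz representation of the defect in the compatibility condition. -/
theorem exists_riesz {V : Submodule ℝ (H × K)} (hV : IsClosed (V : Set (H × K))) (a : H) (b : K) :
    ∃ p ∈ V, (∀ q ∈ V, ⟪p.1, q.1⟫_ℝ + ⟪p.2, q.2⟫_ℝ = ⟪a, q.1⟫_ℝ + ⟪b, q.2⟫_ℝ) ∧
      ‖p.1‖ ^ 2 + ‖p.2‖ ^ 2 ≤ ‖a‖ ^ 2 + ‖b‖ ^ 2 := by
  set E := WithLp.prodContinuousLinearEquiv 2 ℝ H K with hE
  set V' : Submodule ℝ (WithLp 2 (H × K)) := V.comap (E : WithLp 2 (H × K) →ₗ[ℝ] H × K) with hV'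
  have hcl : IsClosed (V' : Set (WithLp 2 (H × K))) := hV.preimage E.continuous
  have hco : CompleteSpace V' := hcl.completeSpace_coe
  set x : WithLp 2 (H × K) := WithLp.toLp 2 (a, b) with hx
  set p : WithLp 2 (H × K) := V'.starProjection x with hp
  have hpV : p ∈ V' := Submodule.starProjection_apply_mem _ _
  have hin : ∀ q ∈ V', ⟪p, q⟫_ℝ = ⟪x, q⟫_ℝ := by
    intro q hq
    have h1 : ⟪x - V'.starProjection x, q⟫_ℝ = 0 := V'.starProjection_inner_eq_zero x q hq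
    rw [inner_sub_left] at h1
    linarith
  have hn : ‖p‖ ^ 2 ≤ ‖x‖ ^ 2 := by
    have h1 : ‖p‖ ≤ ‖x‖ := V'.norm_starProjection_apply_le x
    gcongr
  refine ⟨E p, hpV, fun q hq => ?_, ?_⟩
  · have h2 := hin (E.symm q) (by
      show E (E.symm q) ∈ V
      rw [E.apply_symm_apply]; exact hq)
    rw [WithLp.prod_inner_apply, WithLp.prod_inner_apply] at h2
    exact h2
  · rw [WithLp.prod_norm_sq_eq_of_L2, WithLp.prod_norm_sq_eq_of_L2] at hn
    exact hn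

set_option maxHeartbeats 4000000 in
/-- Admissible data for the limit space are limits of admissible data. -/
theorem recover_data [TopologicalSpace.SeparableSpace K] (Fr0 : Frame W0 m C)
    (hW : W ≤ W0)
    (hcomp : ∀ R : ℝ, TotallyBounded {v : H | ∃ z, (v, z) ∈ W0 ∧ ‖z‖ ≤ R})
    {Wn : ℕ → Submodule ℝ (H × K)} (hle : ∀ n, Wn n ≤ W0)
    (hcl : ∀ n, IsClosed (Wn n : Set (H × K))) (M : MosS Wn W) {e : Dat H K}
    (he : Adm W m ν T e) :
    ∃ d : ℕ → Dat H K, (∀ n, Adm (Wn n) m ν T (d n)) ∧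
      Tendsto (fun n => (d n).x) atTop (𝓝 e.x) ∧
      (∀ t, Tendsto (fun n => (d n).F t) atTop (𝓝 (e.F t))) ∧
      Tendsto (fun n => (d n).size T) atTop (𝓝 (e.size T)) := by
  obtain ⟨r, hr1, hr2⟩ := M.recov (e.x, e.z) he.mem
  have hrx : Tendsto (fun n => (r n).1) atTop (𝓝 e.x) := (continuous_fst.tendsto _).comp hr2
  have hrz : Tendsto (fun n => (r n).2) atTop (𝓝 e.z) := (continuous_snd.tendsto _).comp hr2
  have hmr : Tendsto (fun n => m (r n).1) atTop (𝓝 (m e.x)) := by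
    refine m_tendsto Fr0 (z := fun n => (r n).2) (s1 := ‖e.z‖ + 1) (by linarith) (hW he.mem) ?_
      (Eventually.of_forall fun n => hle n (hr1 n)) hrx
    have h1 : Tendsto (fun n => ‖(r n).2‖) atTop (𝓝 ‖e.z‖) := hrz.norm
    filter_upwards [h1.eventually (gt_mem_nhds (show ‖e.z‖ < ‖e.z‖ + 1 by linarith))] with n hn
    exact hn.le
  set b : ℕ → K := fun n => -(e.F 0 - ν • (r n).2 + m (r n).1) with hb
  have hbl : Tendsto b atTop (𝓝 (-(e.F 0 - ν • e.z + m e.x))) :=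
    (((tendsto_const_nhds).sub (hrz.const_smul ν)).add hmr).neg
  choose a ha1 ha2 ha3 using fun n => exists_riesz (hcl n) e.g (b n)
  -- the representatives tend to zero
  have hkey : Tendsto (fun n => ‖(a n).1‖ ^ 2 + ‖(a n).2‖ ^ 2) atTop (𝓝 0) := by
    rw [tendsto_iff_ultrafilter]
    intro U hU
    have MU := M.toU U hU
    obtain ⟨B, hB⟩ := hbl.norm.bddAbove_range
    have hB' : ∀ n, ‖b n‖ ≤ B := fun n => hB ⟨n, rfl⟩
    have hB0 : 0 ≤ B := (norm_nonneg _).trans (hB' 0)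
    set N : ℝ := √(‖e.g‖ ^ 2 + B ^ 2) with hN
    have hN1 : ∀ n, ‖(a n).2‖ ≤ N := fun n => Real.le_sqrt_of_sq_le (by
      have h1 := ha3 n
      have h2 : ‖b n‖ ^ 2 ≤ B ^ 2 := by
        have := hB' n
        gcongr
      nlinarith [sq_nonneg ‖(a n).1‖])
    have hK : IsCompact (closure {v : H | ∃ z, (v, z) ∈ W0 ∧ ‖z‖ ≤ N}) :=
      isCompact_iff_totallyBounded_isComplete.mpr
        ⟨(hcomp N).closure, isClosed_closure.isComplete⟩
    obtain ⟨x, -, hu⟩ := hK.ultrafilter_le_nhds (U.map (fun i => (a i).1)) (by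
      rw [le_principal_iff]
      show _ ∈ Filter.map (fun i => (a i).1) (U : Filter ℕ)
      rw [Filter.mem_map]
      refine Filter.univ_mem' (fun i => ?_)
      exact subset_closure ⟨_, hle i (ha1 i), hN1 i⟩)
    have hu' : Tendsto (fun i => (a i).1) U (𝓝 x) := hu
    obtain ⟨y, hy0, hy⟩ := exists_weak_limit U (fun i => (a i).2) N (Eventually.of_forall hN1)
    have hxy : (x, y) ∈ W := MU.lim a (x, y) N ha1 hN1 hu' hy
    have e0 : ∀ n, ‖(a n).1‖ ^ 2 + ‖(a n).2‖ ^ 2 = ⟪e.g, (a n).1⟫_ℝ + ⟪(a n).2, b n⟫_ℝ := by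
      intro n
      have := ha2 n (a n) (ha1 n)
      rw [real_inner_self_eq_norm_sq, real_inner_self_eq_norm_sq] at this
      rw [this, real_inner_comm (a n).2]
    simp only [e0]
    have l1 : Tendsto (fun n => ⟪e.g, (a n).1⟫_ℝ) U (𝓝 ⟪e.g, x⟫_ℝ) :=
      tendsto_const_nhds.inner hu'
    have l2 := weak_strong hN1 hy (hbl.mono_left hU)
    have l3 := l1.add l2
    have e1 : ⟪e.g, x⟫_ℝ + ⟪y, -(e.F 0 - ν • e.z + m e.x)⟫_ℝ = 0 := by
      have := he.comp _ hxy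
      simp only at this
      rw [inner_neg_right, real_inner_comm (e.F 0 - ν • e.z + m e.x) y, this]
      ring
    rw [e1] at l3
    exact l3
  have ha1' : Tendsto (fun n => (a n).1) atTop (𝓝 0) := by
    rw [tendsto_zero_iff_norm_tendsto_zero]
    have h1 : Tendsto (fun n => ‖(a n).1‖ ^ 2) atTop (𝓝 0) :=
      squeeze_zero (fun n => by positivity) (fun n => by nlinarith [sq_nonneg ‖(a n).2‖]) hkey
    have h2 := h1.sqrt
    simpa [Real.sqrt_sq] using h2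
  have ha2' : Tendsto (fun n => (a n).2) atTop (𝓝 0) := by
    rw [tendsto_zero_iff_norm_tendsto_zero]
    have h1 : Tendsto (fun n => ‖(a n).2‖ ^ 2) atTop (𝓝 0) :=
      squeeze_zero (fun n => by positivity) (fun n => by nlinarith [sq_nonneg ‖(a n).1‖]) hkey
    have h2 := h1.sqrt
    simpa [Real.sqrt_sq] using h2
  refine ⟨fun n => ⟨(r n).1, (r n).2, fun t => e.F t + (a n).2, e.F1, e.g - (a n).1⟩,
    fun n => ⟨hr1 n, ⟨he.force.memLp, fun s t h1 h2 h3 => ?_⟩, fun q hq => ?_⟩, hrx, fun t => ?_, ?_⟩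
  · show (e.F t + (a n).2) - (e.F s + (a n).2) = _
    rw [add_sub_add_right_eq_sub]
    exact he.force.prim s t h1 h2 h3
  · show ⟪(e.F 0 + (a n).2) - ν • (r n).2 + m (r n).1, q.2⟫_ℝ = ⟪e.g - (a n).1, q.1⟫_ℝ
    have h1 := ha2 n q hq
    have h2 : ⟪b n, q.2⟫_ℝ = -⟪e.F 0 - ν • (r n).2 + m (r n).1, q.2⟫_ℝ := by
      rw [hb, inner_neg_left]
    have h3 : (e.F 0 + (a n).2) - ν • (r n).2 + m (r n).1
        = (e.F 0 - ν • (r n).2 + m (r n).1) + (a n).2 := by abel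
    rw [h3, inner_add_left, inner_sub_left]
    linarith
  · have := (tendsto_const_nhds (x := e.F t) (f := (atTop : Filter ℕ))).add ha2'
    rw [add_zero] at this
    exact this
  · show Tendsto (fun n => ‖(r n).2‖ ^ 2 + ‖e.F 0 + (a n).2‖ ^ 2
      + (∫ s in (0 : ℝ)..T, ‖e.F1 s‖ ^ 2) + ‖e.g - (a n).1‖ ^ 2) atTop (𝓝 (‖e.z‖ ^ 2 + ‖e.F 0‖ ^ 2
        + (∫ s in (0 : ℝ)..T, ‖e.F1 s‖ ^ 2) + ‖e.g‖ ^ 2))
    have h1 := (tendsto_const_nhds (x := e.F 0) (f := (atTop : Filter ℕ))).add ha2'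
    have h2 := (tendsto_const_nhds (x := e.g) (f := (atTop : Filter ℕ))).sub ha1'
    rw [add_zero] at h1
    rw [sub_zero] at h2
    exact (((hrz.norm.pow 2).add (h1.norm.pow 2)).add tendsto_const_nhds).add (h2.norm.pow 2)

/-- Transfer of the regularity between the limit space and the spaces of the sequence. -/
theorem transfer_abs [TopologicalSpace.SeparableSpace K] (Fr0 : Frame W0 m C)
    (Un0 : Univ W0 m c)
    (hW : W ≤ W0) (hWc : IsClosed (W : Set (H × K))) (hν : 0 < ν) (hT : 0 < T)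
    (hcomp : ∀ R : ℝ, TotallyBounded {v : H | ∃ z, (v, z) ∈ W0 ∧ ‖z‖ ≤ R})
    {Wn : ℕ → Submodule ℝ (H × K)} (hle : ∀ n, Wn n ≤ W0)
    (hcl : ∀ n, IsClosed (Wn n : Set (H × K))) (M : MosS Wn W) {R : ℝ} (hR0 : 0 ≤ R) :
    List.TFAE [∀ d : Dat H K, Adm W m ν T d → d.size T ≤ R → Good W m ν T d,
      ∃ R' : ℝ, R < R' ∧ ∃ L : ℝ, ∀ᶠ n in atTop, ∀ d : Dat H K, Adm (Wn n) m ν T d →
        d.size T ≤ R' → ∃ (u u1 : ℝ → H) (z z1 : ℝ → K), Str (Wn n) m ν T d.F u u1 z z1 ∧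
        u 0 = d.x ∧ ∀ t ∈ Icc 0 T, ‖z t‖ ≤ L,
      ∃ R' : ℝ, R < R' ∧ ∃ L : ℝ, ∃ᶠ n in atTop, ∀ d : Dat H K, Adm (Wn n) m ν T d →
        d.size T ≤ R' → ∃ (u u1 : ℝ → H) (z z1 : ℝ → K), Str (Wn n) m ν T d.F u u1 z z1 ∧
        u 0 = d.x ∧ ∀ t ∈ Icc 0 T, ‖z t‖ ≤ L] := by
  tfae_have 1 → 2 := by
    intro Q
    obtain ⟨R', h1, L, n0, h2⟩ := main_abs Fr0 Un0 hW hWc hν hT hcomp hle hcl M hR0 Q
    exact ⟨R', h1, L, (eventually_ge_atTop n0).mono h2⟩
  tfae_have 2 → 3 := by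
    rintro ⟨R', h1, L, h2⟩
    exact ⟨R', h1, L, h2.frequently⟩
  tfae_have 3 → 1 := by
    rintro ⟨R', h1, L, h2⟩ e he hes
    obtain ⟨φ, hφ, hφP⟩ := extraction_of_frequently_atTop h2
    obtain ⟨d, k1, k2, k3, k4⟩ := recover_data Fr0 hW hcomp (fun n => hle (φ n))
      (fun n => hcl (φ n)) (M.comp hφ) he
    have hev : ∀ᶠ n in atTop, (d n).size T ≤ R' :=
      (k4.eventually (gt_mem_nhds (hes.trans_lt h1))).mono fun n hn => hn.le
    obtain ⟨n0, hn0⟩ := eventually_atTop.1 hev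
    have hsh : StrictMono fun n : ℕ => n + n0 := fun a b hab => by
      show a + n0 < b + n0
      omega
    have hUle : ((hyperfilter ℕ : Ultrafilter ℕ) : Filter ℕ) ≤ atTop := Nat.hyperfilter_le_atTop
    have MU : MosU (hyperfilter ℕ) (fun n => Wn (φ (n + n0))) W :=
      ((M.comp hφ).comp hsh).toU (hyperfilter ℕ) hUle
    have hR'0 : 0 ≤ R' := hR0.trans h1.le
    have hp := fun n => size_parts hT.le (hn0 (n + n0) (by omega))
    have htl := (hsh.tendsto_atTop).mono_left hUle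
    refine limit_good Fr0 Un0 hW hWc hν hT hcomp (R := √R' + R') (L := max L 0) (by positivity)
      (le_max_right _ _) he ℕ (hyperfilter ℕ) (fun n => Wn (φ (n + n0))) (fun n => d (n + n0))
      (fun n => hle _) (fun n => hcl _) MU (fun n => k1 _)
      (fun n => (Real.le_sqrt_of_sq_le (hp n).2.1).trans (by linarith))
      (fun n => (hp n).2.2.1.trans (by linarith [Real.sqrt_nonneg R'])) (k2.comp htl)
      (fun t _ k => ((k3 t).comp htl).inner tendsto_const_nhds) fun n => ?_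
    obtain ⟨u, u1, z, z1, s1, s2, s3⟩ := hφP (n + n0) (d (n + n0)) (k1 _) (hn0 _ (by omega))
    exact ⟨u, u1, z, z1, s1, s2, fun t ht => (s3 t ht).trans (le_max_left _ _)⟩
  tfae_finish

end

end Pool.Agent.H303.DS
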